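import Pool.Agent.H74.TG.CapChoose
import Pool.Agent.H74.TE.Strong
import Pool.Graph.R_seed8.Y254.Main

/-!
Splitting the directions into broad caps.
-/

set_option autoImplicit false

open MeasureTheory Set Metric
open scoped ENNReal NNReal

namespace Pool.Agent.H74.TG
open Pool.Agent.Y254 Pool.Agent.H74.TD Pool.Agent.H74.TE
open Pool.Agent.TH705.RR (E vb vb_pos Rod sn sn_sq sn_nonneg sn_le_one)

/-- A finite net. -/
theorem exists_net {ι : Type} [Fintype ι] [DecidableEq ι] (d : ι → ι → ℝ) (hs : ∀ i j, d i j = d j i)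
    {r : ℝ} : ∃ C : Finset ι, (∀ i ∈ C, ∀ j ∈ C, i ≠ j → r ≤ d i j) ∧
      ∀ i, ∃ c ∈ C, i = c ∨ d i c < r := by
  classical
  set P : Finset (Finset ι) := Finset.univ.filter
    (fun C => ∀ i ∈ C, ∀ j ∈ C, i ≠ j → r ≤ d i j) with hP
  have hne : P.Nonempty := ⟨∅, Finset.mem_filter.2 ⟨Finset.mem_univ _, by simp⟩⟩
  obtain ⟨C, hC, hmax⟩ := Finset.exists_max_image P (fun C => C.card) hne
  have hCs := (Finset.mem_filter.1 hC).2
  refine ⟨C, hCs, ?_⟩
  intro i
  by_contra hcon
  push Not at hcon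
  have hiC : i ∉ C := fun h => (hcon i h).1 rfl
  have h1 : insert i C ∈ P := by
    refine Finset.mem_filter.2 ⟨Finset.mem_univ _, ?_⟩
    intro j hj k hk hjk
    rcases Finset.mem_insert.1 hj with h1 | h1
    · rcases Finset.mem_insert.1 hk with h2 | h2
      · exact absurd (h1.trans h2.symm) hjk
      · rw [h1]
        exact (hcon k h2).2
    · rcases Finset.mem_insert.1 hk with h2 | h2
      · rw [hs, h2]
        exact (hcon j h1).2
      · exact hCs j h1 k h2 hjk
  have h2 := hmax _ h1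
  rw [Finset.card_insert_of_notMem hiC] at h2
  omega

/-- The growth condition. -/
def Gr (δ : ℝ) (F : Set (E 3)) (B : ℝ) : Prop := ∀ (x : E 3) (r : ℝ), δ ≤ r → r ≤ 32 →
      volume (F ∩ closedBall x r) ≤ ENNReal.ofReal (B ^ 2 * (δ * √δ) * (r * √r))

theorem level5 {ε : ℝ} (hε : 0 < ε) : ∃ C : ℝ, 1 ≤ C ∧ LVP 3 1 Gr ε C := by
  classical
  have hn1 : 1 ≤ 3 := by omega
  have hCv := Cv_pos 3
  obtain ⟨K0, hK01, hcount⟩ := Pool.Agent.TH705.RR.count (n := 3) hn1
  obtain ⟨C, hC1, hCB⟩ := cap_bound (half_pos hε) (K1 := 4 * K0) (by linarith)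
  obtain ⟨Cη, hCη1, hlog⟩ := log_bound (η := ε / 4) (by positivity)
  set D1 : ℝ := 16 * K0 * (2 * Cv 3) ^ 2 with hD1
  set D2 : ℝ := 2 * (256 * K0) ^ 2 * (Cη ^ 2 * 2 ^ (ε / 2)) * C with hD2
  have hD10 : 0 ≤ D1 := by positivity
  have hD20 : 0 ≤ D2 := by positivity
  refine ⟨1 + D1 + D2, by linarith, ?_⟩
  intro δ hδ hδ1 ι _ a e he hsep hpair F G hG hGF B hB hF μ hμ hmul hmul2 S hS0 hS
  set T : ι → Set (E 3) := fun i => tube δ (a i) (e i) with hT
  have hTm : ∀ i, MeasurableSet (T i) := fun i => tube_meas _ _ _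
  set N : ℝ := (Fintype.card ι : ℝ) with hN
  have hN00 : 0 ≤ N := by positivity
  set M : ℝ := N * δ ^ 2 with hM
  have hM0 : 0 ≤ M := by positivity
  have hμ0 : 0 < μ := by linarith
  have hδε : 1 ≤ δ ^ (-ε) := by
    apply Real.one_le_rpow_of_pos_of_le_one_of_nonpos hδ hδ1.le
    linarith
  show μ * S ^ 2 ≤ (1 + D1 + D2) * B * δ ^ (-ε) * M ^ 2
  have hsuff : ∀ D : ℝ, D ≤ 1 + D1 + D2 → μ * S ^ 2 ≤ D * (B * δ ^ (-ε) * M ^ 2) →
      μ * S ^ 2 ≤ (1 + D1 + D2) * B * δ ^ (-ε) * M ^ 2 := by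
    intro D hD h
    calc μ * S ^ 2 ≤ D * (B * δ ^ (-ε) * M ^ 2) := h
      _ ≤ (1 + D1 + D2) * (B * δ ^ (-ε) * M ^ 2) := by gcongr
      _ = _ := by ring
  have hfac : M ^ 2 ≤ B * δ ^ (-ε) * M ^ 2 := by
    have h1 : 1 ≤ B * δ ^ (-ε) := one_le_mul_of_one_le_of_one_le hB hδε
    have h2 : 0 ≤ M ^ 2 := by positivity
    nlinarith
  have hmassE : ENNReal.ofReal S ≤ ENNReal.ofReal (2 * Cv 3 * M) := by
    rw [← hS]
    exact (setLIntegral_le_lintegral _ _).trans (mass hn1 hδ hδ1 a e he)
  have hmass : S ≤ 2 * Cv 3 * M := (ENNReal.ofReal_le_ofReal_iff (by positivity)).1 hmassE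
  rcases le_or_gt μ (16 * K0) with hμs | hμb
  · apply hsuff D1 (by linarith)
    calc μ * S ^ 2 ≤ (16 * K0) * (2 * Cv 3 * M) ^ 2 := by gcongr
      _ = D1 * M ^ 2 := by rw [hD1]; ring
      _ ≤ _ := by gcongr
  apply hsuff D2 (by linarith)
  -- the scales
  obtain ⟨l0, hl1, hl2⟩ := exists_nat_pow_near (x := 1 / δ) (y := (2 : ℝ)) (by
    rw [le_div_iff₀ hδ]; linarith) (by norm_num)
  set L : ℕ := l0 + 1 with hL
  have hL1 : 1 ≤ L := by omega
  have hLr : (1 : ℝ) ≤ L := by exact_mod_cast hL1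
  have hL0 : (0 : ℝ) < L := by linarith
  have hLδ : 1 < 2 ^ L * δ := by
    rwa [div_lt_iff₀ hδ] at hl2
  have h2L : (2 : ℝ) ^ L ≤ 2 / δ := by
    rw [hL, pow_succ]
    calc (2 : ℝ) ^ l0 * 2 ≤ 1 / δ * 2 := by gcongr
      _ = _ := by ring
  set rr : ℕ → ℝ := fun l => 2 ^ l * δ with hrr
  have hrr0 : ∀ l, 0 < rr l := fun l => by positivity
  have hrrδ : ∀ l, δ ≤ rr l := by
    intro l
    have : (1 : ℝ) ≤ 2 ^ l := one_le_pow₀ (by norm_num)
    simp only [hrr]
    nlinarith
  have hrr2 : ∀ l, l ≤ L → rr l ≤ 2 := by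
    intro l hl
    have h1 : (2 : ℝ) ^ l ≤ 2 ^ L := pow_le_pow_right₀ (by norm_num) hl
    calc rr l ≤ 2 ^ L * δ := by simp only [hrr]; gcongr
      _ ≤ 2 / δ * δ := by gcongr
      _ = 2 := by field_simp
  -- the nets
  have hnet : ∀ l : ℕ, ∃ Cl : Finset ι, (∀ i ∈ Cl, ∀ j ∈ Cl, i ≠ j → rr l ≤ ‖e i - e j‖) ∧
      ∀ i, ∃ c ∈ Cl, ‖e i - e c‖ ≤ rr l := by
    intro l
    obtain ⟨Cl, h1, h2⟩ := exists_net (fun i j => ‖e i - e j‖) (fun i j => norm_sub_rev _ _)
      (r := rr l)
    refine ⟨Cl, h1, fun i => ?_⟩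
    obtain ⟨c, hc, h3⟩ := h2 i
    refine ⟨c, hc, ?_⟩
    rcases h3 with rfl | h3
    · simp [(hrr0 l).le]
    · exact h3.le
  choose Cl hCls hClc using hnet
  set cap : ℕ → ι → Finset ι := fun l c => Finset.univ.filter (fun j => ‖e j - e c‖ ≤ 2 * rr l)
    with hcap
  have hcapcard : ∀ l c, ((cap l c).card : ℝ) ≤ 4 * K0 * (rr l / δ) ^ 2 := by
    intro l c
    have h1 := hcount δ hδ hδ1 e he hsep (e c) (he c) (cap l c) (2 * rr l) (by
      have := hrrδ l
      linarith [hrr0 l]) (fun j hj => by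
      refine (sn_le (he c) (he j)).trans ?_
      rw [norm_sub_rev]
      exact (Finset.mem_filter.1 hj).2)
    refine h1.trans (le_of_eq ?_)
    norm_num
    ring
  have hoverlap : ∀ l, l ≤ L → ∑ c ∈ Cl l, ((cap l c).card : ℝ) ≤ 64 * K0 * N := by
    intro l hl
    have h1 : ∀ j : ι, (((Cl l).filter (fun c => ‖e j - e c‖ ≤ 2 * rr l)).card : ℝ) ≤ 64 * K0 := by
      intro j
      set Q : Finset ι := (Cl l).filter (fun c => ‖e j - e c‖ ≤ 2 * rr l) with hQ
      have h2 := hcount (rr l / 4) (by have := hrr0 l; positivity) (by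
        have := hrr2 l hl
        linarith) (fun c : {c // c ∈ Cl l} => e c) (fun c => he c) (fun c c' hcc => by
          have h3 := hCls l c c.2 c' c'.2 (fun h => hcc (Subtype.ext h))
          have := hrr0 l
          linarith) (e j) (he j) (Finset.univ.filter (fun c : {c // c ∈ Cl l} =>
            ‖e j - e c‖ ≤ 2 * rr l)) (2 * rr l) (by have := hrr0 l; linarith) (fun c hc => by
          exact (sn_le (he j) (he c)).trans (Finset.mem_filter.1 hc).2)
      have h3 : Q.card ≤ (Finset.univ.filter (fun c : {c // c ∈ Cl l} =>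
            ‖e j - e c‖ ≤ 2 * rr l)).card := by
        refine Finset.card_le_card_of_injOn (fun c => if h : c ∈ Cl l then ⟨c, h⟩ else
          ⟨(hClc l j).choose, (hClc l j).choose_spec.1⟩) ?_ ?_
        · intro c hc
          obtain ⟨hc1, hc2⟩ := Finset.mem_filter.1 hc
          simp only [hc1, dif_pos, Finset.coe_filter, Finset.mem_univ, true_and, mem_ofPred_eq]
          exact hc2
        · intro c hc c' hc' hcc
          have hc1 := (Finset.mem_filter.1 hc).1
          have hc1' := (Finset.mem_filter.1 hc').1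
          simp only [hc1, hc1', dif_pos] at hcc
          exact congrArg Subtype.val hcc
      have h4 : (Q.card : ℝ) ≤ ((Finset.univ.filter (fun c : {c // c ∈ Cl l} =>
            ‖e j - e c‖ ≤ 2 * rr l)).card : ℝ) := by exact_mod_cast h3
      refine h4.trans (h2.trans (le_of_eq ?_))
      have h5 : 2 * rr l / (rr l / 4) = 8 := by
        have := (hrr0 l).ne'
        field_simp
        norm_num
      rw [h5]
      norm_num
      ring
    have h2 : ∑ c ∈ Cl l, ((cap l c).card : ℝ) =
        ∑ j : ι, (((Cl l).filter (fun c => ‖e j - e c‖ ≤ 2 * rr l)).card : ℝ) := by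
      have e1 : ∀ c, ((cap l c).card : ℝ) = ∑ j : ι, if ‖e j - e c‖ ≤ 2 * rr l then (1 : ℝ) else 0 := by
        intro c
        rw [hcap, Finset.card_filter]
        push_cast
        rfl
      have e2 : ∀ j : ι, (((Cl l).filter (fun c => ‖e j - e c‖ ≤ 2 * rr l)).card : ℝ) =
          ∑ c ∈ Cl l, if ‖e j - e c‖ ≤ 2 * rr l then (1 : ℝ) else 0 := by
        intro j
        rw [Finset.card_filter]
        push_cast
        rfl
      simp only [e1, e2]
      exact Finset.sum_comm
    rw [h2]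
    calc ∑ j : ι, (((Cl l).filter (fun c => ‖e j - e c‖ ≤ 2 * rr l)).card : ℝ)
        ≤ ∑ _j : ι, 64 * K0 := Finset.sum_le_sum fun j _ => h1 j
      _ = _ := by
          rw [Finset.sum_const, Finset.card_univ, nsmul_eq_mul]
          ring
  -- the multiplicities of the caps
  set mk : ℕ → ι → E 3 → ℝ≥0∞ := fun l c x => ∑ j ∈ cap l c, (T j).indicator 1 x with hmk
  have hmkm : ∀ l c, Measurable (mk l c) := fun l c =>
    Finset.measurable_sum _ fun j _ => measurable_one.indicator (hTm j)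
  have hmkle : ∀ l c x, mk l c x ≤ mult T x := fun l c x =>
    Finset.sum_le_sum_of_subset (Finset.subset_univ _)
  set β : ℝ := 1 - 1 / (2 * L) with hβ
  have hβ0 : 0 < β := by
    have : 1 / (2 * (L : ℝ)) ≤ 1 / 2 := by
      apply one_div_le_one_div_of_le (by norm_num)
      linarith
    rw [hβ]
    linarith
  have hβ1 : β ≤ 1 := by
    have : 0 ≤ 1 / (2 * (L : ℝ)) := by positivity
    rw [hβ]
    linarith
  have hβL : 1 / 2 ≤ β ^ L := by
    have h1 := one_add_mul_le_pow (a := -(1 / (2 * (L : ℝ)))) (by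
      have : 1 / (2 * (L : ℝ)) ≤ 1 / 2 := by
        apply one_div_le_one_div_of_le (by norm_num)
        linarith
      linarith) L
    have h2 : 1 + (L : ℝ) * -(1 / (2 * (L : ℝ))) = 1 / 2 := by
      field_simp
      norm_num
    rw [h2] at h1
    rw [hβ, sub_eq_add_neg]
    exact h1
  set τ : ℕ → ℝ := fun l => μ * β ^ (L - l) with hτ
  have hτμ : ∀ l, μ / 2 ≤ τ l := by
    intro l
    have h1 : β ^ L ≤ β ^ (L - l) := pow_le_pow_of_le_one hβ0.le hβ1 (by omega)
    simp only [hτ]
    nlinarith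
  have hτ0 : ∀ l, 0 < τ l := fun l => lt_of_lt_of_le (by positivity) (hτμ l)
  have hτs : ∀ l, 1 ≤ l → l ≤ L → τ (l - 1) = β * τ l := by
    intro l h1 h2
    have : L - (l - 1) = (L - l) + 1 := by omega
    simp only [hτ]
    rw [this, pow_succ]
    ring
  -- the good points of a cap
  set Gk : ℕ → ι → Set (E 3) := fun l c => {x | x ∈ G ∧ ENNReal.ofReal (τ l) ≤ mk l c x ∧
    ∀ c' ∈ Cl (l - 1), mk (l - 1) c' x < ENNReal.ofReal (τ (l - 1))} with hGk
  have hGkm : ∀ l c, MeasurableSet (Gk l c) := by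
    intro l c
    have e1 : Gk l c = G ∩ ({x | ENNReal.ofReal (τ l) ≤ mk l c x} ∩
        ⋂ c' ∈ Cl (l - 1), {x | mk (l - 1) c' x < ENNReal.ofReal (τ (l - 1))}) := by
      ext x
      simp only [hGk, mem_ofPred_eq, mem_inter_iff, mem_iInter]
    rw [e1]
    refine hG.inter ((measurableSet_le measurable_const (hmkm l c)).inter ?_)
    exact Finset.measurableSet_biInter _ fun c' _ =>
      measurableSet_lt (hmkm _ c') measurable_const
  have hGkG : ∀ l c, Gk l c ⊆ G := fun l c x hx => hx.1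
  have hcover : ∀ x ∈ G, ∃ l ∈ Finset.Icc 1 L, ∃ c ∈ Cl l, x ∈ Gk l c := by
    intro x hx
    have hex : ∃ l, ∃ c ∈ Cl l, ENNReal.ofReal (τ l) ≤ mk l c x := by
      have hne : Nonempty ι := by
        by_contra hcon
        rw [not_nonempty_iff] at hcon
        have h1 := hmul2 x hx
        have h2 : mult T x = 0 := by
          unfold mult
          rw [Finset.univ_eq_empty, Finset.sum_empty]
        rw [h2] at h1
        have h3 := ENNReal.ofReal_pos.2 hμ0
        exact absurd h1 (not_le.2 h3)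
      obtain ⟨i0⟩ := hne
      obtain ⟨c, hc, -⟩ := hClc L i0
      refine ⟨L, c, hc, ?_⟩
      have e1 : cap L c = Finset.univ := by
        rw [Finset.eq_univ_iff_forall]
        intro j
        refine Finset.mem_filter.2 ⟨Finset.mem_univ _, (hpair j c).trans ?_⟩
        have : 1 < rr L := hLδ
        linarith
      have e2 : mk L c x = mult T x := by
        simp only [hmk]
        rw [e1]
        rfl
      rw [e2]
      refine le_trans (le_of_eq ?_) (hmul2 x hx)
      simp [hτ]
    set l := Nat.find hex with hl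
    obtain ⟨c, hc, hcx⟩ := Nat.find_spec hex
    have hlL : l ≤ L := by
      by_contra hcon
      rw [not_le] at hcon
      apply Nat.find_min hex hcon
      have hne : Nonempty ι := ⟨c⟩
      obtain ⟨c', hc', -⟩ := hClc L c
      refine ⟨c', hc', ?_⟩
      have e1 : cap L c' = Finset.univ := by
        rw [Finset.eq_univ_iff_forall]
        intro j
        refine Finset.mem_filter.2 ⟨Finset.mem_univ _, (hpair j c').trans ?_⟩
        have : 1 < rr L := hLδ
        linarith
      have e2 : mk L c' x = mult T x := by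
        simp only [hmk]
        rw [e1]
        rfl
      rw [e2]
      refine le_trans (le_of_eq ?_) (hmul2 x hx)
      simp [hτ]
    have hl1 : 1 ≤ l := by
      by_contra hcon
      have h0 : l = 0 := by omega
      rw [← hl, h0] at hcx
      have h1 : mk 0 c x ≤ ENNReal.ofReal (4 * K0) := by
        calc mk 0 c x ≤ ∑ _j ∈ cap 0 c, (1 : ℝ≥0∞) := by
              refine Finset.sum_le_sum fun j _ => ?_
              by_cases h : x ∈ T j
              · rw [indicator_of_mem h]; rfl
              · rw [indicator_of_notMem h]; exact zero_le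
          _ = ENNReal.ofReal ((cap 0 c).card : ℝ) := by
              rw [Finset.sum_const, nsmul_eq_mul, mul_one, ENNReal.ofReal_natCast]
          _ ≤ _ := by
              apply ENNReal.ofReal_le_ofReal
              refine (hcapcard 0 c).trans (le_of_eq ?_)
              have : rr 0 / δ = 1 := by
                simp only [hrr]
                field_simp
              rw [this]
              ring
      have h2 := (ENNReal.ofReal_le_ofReal_iff (by positivity)).1 (hcx.trans h1)
      have h3 := hτμ 0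
      linarith
    refine ⟨l, Finset.mem_Icc.2 ⟨hl1, hlL⟩, c, hc, hx, hcx, ?_⟩
    intro c' hc'
    by_contra hcon
    rw [not_lt] at hcon
    exact Nat.find_min hex (m := l - 1) (by omega) ⟨c', hc', hcon⟩
  -- the bound for one cap
  set Y : ℝ := C * B * δ ^ (-(ε / 2)) with hY
  have hY0 : 0 ≤ Y := by positivity
  set Z : ℝ := √(2 * Y / μ) with hZ
  have hcapb : ∀ l ∈ Finset.Icc 1 L, ∀ c ∈ Cl l,
      ∫⁻ x in Gk l c, mult T x ≤ ENNReal.ofReal (4 * (Z * ((cap l c).card * δ ^ 2))) := by
    intro l hl c hc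
    obtain ⟨hl1, hlL⟩ := Finset.mem_Icc.1 hl
    have hmkmul : ∀ x, mult (fun i : {j // j ∈ cap l c} => tube δ (a i) (e i)) x = mk l c x := by
      intro x
      simp only [hmk]
      unfold mult
      rw [← Finset.sum_coe_sort (cap l c)]
    have hSfin : ∫⁻ x in Gk l c, mk l c x ≠ ∞ := by
      refine ne_top_of_le_ne_top ENNReal.ofReal_ne_top (b := ENNReal.ofReal (2 * Cv 3 * M)) ?_
      refine (lintegral_mono fun x => hmkle l c x).trans ?_
      exact (setLIntegral_le_lintegral _ _).trans (mass hn1 hδ hδ1 a e he)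
    set S' : ℝ := (∫⁻ x in Gk l c, mk l c x).toReal with hS'
    have hS'e : ∫⁻ x in Gk l c, mk l c x = ENNReal.ofReal S' := (ENNReal.ofReal_toReal hSfin).symm
    have hS'0 : 0 ≤ S' := ENNReal.toReal_nonneg
    have hcardN : (Fintype.card {j // j ∈ cap l c} : ℝ) = (cap l c).card := by
      rw [Fintype.card_coe]
    have h1 := hCB δ hδ hδ1 (fun i : {j // j ∈ cap l c} => a i) (fun i => e i) (fun i => he i)
      (fun i j hij => hsep i j (fun h => hij (Subtype.ext h))) (fun i j => hpair i j) F (Gk l c)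
      (hGkm l c) ((hGkG l c).trans hGF) B hB hF (τ l) (hτ0 l) (fun x hx => by
        rw [hmkmul x]
        refine (hmkle l c x).trans ((hmul x hx.1).trans (ENNReal.ofReal_le_ofReal ?_))
        have := hτμ l
        linarith) (fun x hx => by
        rw [hmkmul x]
        exact hx.2.1) L hL1 hLδ h2L (rr l) (hrr0 l) (fun x hx i Q hQ => by
        obtain ⟨c', hc', hic⟩ := hClc (l - 1) i
        have hhalf : rr l / 2 = rr (l - 1) := by
          obtain ⟨k, rfl⟩ : ∃ k, l = k + 1 := ⟨l - 1, by omega⟩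
          simp only [hrr, Nat.add_sub_cancel]
          rw [pow_succ]
          ring
        have h2 := hx.2.2 c' hc'
        have h3 : ENNReal.ofReal (Q.card : ℝ) ≤ mk (l - 1) c' x := by
          rw [ENNReal.ofReal_natCast]
          calc (Q.card : ℝ≥0∞) = ∑ j ∈ Q, (T j).indicator (1 : E 3 → ℝ≥0∞) x := by
                rw [Finset.card_eq_sum_ones]
                push_cast
                refine Finset.sum_congr rfl fun j hj => ?_
                rw [indicator_of_mem (hQ j hj).1]
                rfl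
            _ = ∑ j ∈ Q.map (Function.Embedding.subtype _), (T j).indicator (1 : E 3 → ℝ≥0∞) x := by
                rw [Finset.sum_map]
                rfl
            _ ≤ _ := by
                apply Finset.sum_le_sum_of_subset
                intro j hj
                obtain ⟨j', hj', rfl⟩ := Finset.mem_map.1 hj
                refine Finset.mem_filter.2 ⟨Finset.mem_univ _, ?_⟩
                have h4 := (hQ j' hj').2
                rw [hhalf] at h4
                calc ‖e (j' : ι) - e c'‖ = ‖(e (i : ι) - e c') - (e (i : ι) - e (j' : ι))‖ := by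
                      congr 1
                      abel
                  _ ≤ ‖e (i : ι) - e c'‖ + ‖e (i : ι) - e (j' : ι)‖ := norm_sub_le _ _
                  _ ≤ _ := by linarith
        have h4 := (ENNReal.ofReal_lt_ofReal_iff (hτ0 (l - 1))).1 (h3.trans_lt h2)
        rw [hτs l hl1 hlL] at h4
        exact h4.le) (by
        rw [hcardN]
        exact hcapcard l c) S' hS'0 (by
        rw [← hS'e]
        exact lintegral_congr fun x => hmkmul x)
    rw [hcardN] at h1
    have h2 : S' ≤ Z * ((cap l c).card * δ ^ 2) := by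
      have h3 : S' ^ 2 ≤ (2 * Y / μ) * ((cap l c).card * δ ^ 2) ^ 2 := by
        have h4 : μ / 2 * S' ^ 2 ≤ Y * ((cap l c).card * δ ^ 2) ^ 2 := by
          refine le_trans ?_ h1
          have := hτμ l
          gcongr
        have h5 : 2 / μ * (μ / 2 * S' ^ 2) ≤ 2 / μ * (Y * ((cap l c).card * δ ^ 2) ^ 2) := by
          gcongr
        calc S' ^ 2 = 2 / μ * (μ / 2 * S' ^ 2) := by field_simp
          _ ≤ _ := h5
          _ = _ := by ring
      have h6 : S' ≤ √((2 * Y / μ) * ((cap l c).card * δ ^ 2) ^ 2) := Real.le_sqrt_of_sq_le h3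
      have h7 : 0 ≤ ((cap l c).card : ℝ) * δ ^ 2 :=
        mul_nonneg (Nat.cast_nonneg _) (pow_nonneg hδ.le 2)
      have h8 : 0 ≤ 2 * Y / μ := by positivity
      rwa [Real.sqrt_mul h8, Real.sqrt_sq h7] at h6
    calc ∫⁻ x in Gk l c, mult T x ≤ ∫⁻ x in Gk l c, 4 * mk l c x := by
          apply setLIntegral_mono' (hGkm l c)
          intro x hx
          calc mult T x ≤ ENNReal.ofReal (2 * μ) := hmul x hx.1
            _ ≤ ENNReal.ofReal (4 * τ l) := by
                apply ENNReal.ofReal_le_ofReal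
                have := hτμ l
                linarith
            _ = 4 * ENNReal.ofReal (τ l) := by
                rw [ENNReal.ofReal_mul (by norm_num), ENNReal.ofReal_ofNat]
            _ ≤ 4 * mk l c x := by
                gcongr
                exact hx.2.1
      _ = 4 * ∫⁻ x in Gk l c, mk l c x := lintegral_const_mul _ (hmkm l c)
      _ = ENNReal.ofReal (4 * S') := by
          rw [hS'e, ENNReal.ofReal_mul (by norm_num), ENNReal.ofReal_ofNat]
      _ ≤ _ := by
          apply ENNReal.ofReal_le_ofReal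
          linarith
  -- the sum
  have hsum : ENNReal.ofReal S ≤ ENNReal.ofReal (256 * K0 * L * Z * M) := by
    have h1 : ∀ x, G.indicator (mult T) x ≤ ∑ l ∈ Finset.Icc 1 L, ∑ c ∈ Cl l,
        (Gk l c).indicator (mult T) x := by
      intro x
      by_cases hx : x ∈ G
      · obtain ⟨l, hl, c, hc, hxc⟩ := hcover x hx
        rw [indicator_of_mem hx]
        calc mult T x = (Gk l c).indicator (mult T) x := by rw [indicator_of_mem hxc]
          _ ≤ ∑ c ∈ Cl l, (Gk l c).indicator (mult T) x :=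
              Finset.single_le_sum (f := fun c => (Gk l c).indicator (mult T) x)
                (fun _ _ => zero_le) hc
          _ ≤ _ := Finset.single_le_sum (f := fun l => ∑ c ∈ Cl l, (Gk l c).indicator (mult T) x)
                (fun _ _ => zero_le) hl
      · rw [indicator_of_notMem hx]
        exact zero_le
    have hmm : Measurable (mult T) := mult_meas hTm
    calc ENNReal.ofReal S = ∫⁻ x, G.indicator (mult T) x := by
          rw [lintegral_indicator hG, hS]
      _ ≤ ∫⁻ x, ∑ l ∈ Finset.Icc 1 L, ∑ c ∈ Cl l, (Gk l c).indicator (mult T) x :=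
          lintegral_mono h1
      _ = ∑ l ∈ Finset.Icc 1 L, ∑ c ∈ Cl l, ∫⁻ x in Gk l c, mult T x := by
          rw [lintegral_finsetSum _ fun l _ => Finset.measurable_sum _ fun c _ =>
            hmm.indicator (hGkm l c)]
          refine Finset.sum_congr rfl fun l _ => ?_
          rw [lintegral_finsetSum _ fun c _ => hmm.indicator (hGkm l c)]
          refine Finset.sum_congr rfl fun c _ => ?_
          rw [lintegral_indicator (hGkm l c)]
      _ ≤ ∑ l ∈ Finset.Icc 1 L, ∑ c ∈ Cl l,
            ENNReal.ofReal (4 * (Z * ((cap l c).card * δ ^ 2))) :=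
          Finset.sum_le_sum fun l hl => Finset.sum_le_sum fun c hc => hcapb l hl c hc
      _ = ENNReal.ofReal (∑ l ∈ Finset.Icc 1 L, ∑ c ∈ Cl l, 4 * (Z * ((cap l c).card * δ ^ 2))) := by
          rw [ENNReal.ofReal_sum_of_nonneg fun l _ => Finset.sum_nonneg fun c _ => by positivity]
          refine Finset.sum_congr rfl fun l _ => ?_
          rw [ENNReal.ofReal_sum_of_nonneg fun c _ => by positivity]
      _ ≤ _ := by
          apply ENNReal.ofReal_le_ofReal
          calc ∑ l ∈ Finset.Icc 1 L, ∑ c ∈ Cl l, 4 * (Z * ((cap l c).card * δ ^ 2))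
              = ∑ l ∈ Finset.Icc 1 L, 4 * Z * δ ^ 2 * ∑ c ∈ Cl l, ((cap l c).card : ℝ) := by
                refine Finset.sum_congr rfl fun l _ => ?_
                rw [Finset.mul_sum]
                refine Finset.sum_congr rfl fun c _ => ?_
                ring
            _ ≤ ∑ _l ∈ Finset.Icc 1 L, 4 * Z * δ ^ 2 * (64 * K0 * N) := by
                apply Finset.sum_le_sum
                intro l hl
                have := hoverlap l (Finset.mem_Icc.1 hl).2
                gcongr
            _ = _ := by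
                rw [Finset.sum_const, Nat.card_Icc, Nat.add_sub_cancel, nsmul_eq_mul, hM]
                ring
  have hS2 : S ≤ 256 * K0 * L * Z * M := (ENNReal.ofReal_le_ofReal_iff (by positivity)).1 hsum
  have hLlog := hlog L (2 / δ) (by positivity) h2L
  have hCη0 : 0 < Cη := by linarith
  have hL2' : (L : ℝ) ^ 2 ≤ (Cη ^ 2 * 2 ^ (ε / 2)) * δ ^ (-(ε / 2)) := by
    calc (L : ℝ) ^ 2 ≤ (Cη * (2 / δ) ^ (ε / 4)) ^ 2 := by gcongr
      _ = Cη ^ 2 * ((2 / δ) ^ (ε / 4)) ^ 2 := by ring
      _ = Cη ^ 2 * (2 / δ) ^ (ε / 2) := by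
          rw [← Real.rpow_natCast ((2 / δ) ^ (ε / 4)) 2, ← Real.rpow_mul (by positivity)]
          congr 2
          push_cast
          ring
      _ = _ := by
          rw [Real.div_rpow (by norm_num) hδ.le, Real.rpow_neg hδ.le]
          ring
  have hexp : δ ^ (-(ε / 2)) * δ ^ (-(ε / 2)) = δ ^ (-ε) := by
    rw [← Real.rpow_add hδ]
    congr 1
    ring
  have hZ2 : μ * Z ^ 2 = 2 * Y := by
    rw [hZ, Real.sq_sqrt (by positivity)]
    field_simp
  calc μ * S ^ 2 ≤ μ * (256 * K0 * L * Z * M) ^ 2 := by gcongr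
    _ = (256 * K0) ^ 2 * (L : ℝ) ^ 2 * (μ * Z ^ 2) * M ^ 2 := by ring
    _ = (256 * K0) ^ 2 * (L : ℝ) ^ 2 * (2 * Y) * M ^ 2 := by rw [hZ2]
    _ ≤ (256 * K0) ^ 2 * ((Cη ^ 2 * 2 ^ (ε / 2)) * δ ^ (-(ε / 2))) * (2 * Y) * M ^ 2 := by gcongr
    _ = D2 * (B * (δ ^ (-(ε / 2)) * δ ^ (-(ε / 2))) * M ^ 2) := by
        rw [hY, hD2]
        ring
    _ = _ := by rw [hexp]

/-- The strong type estimate in `ℝ³`, with the square root of the growth constant. -/
theorem strong3 {ε : ℝ} (hε : 0 < ε) : ∃ C : ℝ, 1 ≤ C ∧ ∀ (δ : ℝ), 0 < δ → δ < 1 →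
    ∀ (F : Set (E 3)), MeasurableSet F → ∀ (B : ℝ), 1 ≤ B →
    (∀ (x : E 3) (r : ℝ), δ ≤ r → r ≤ 32 →
      volume (F ∩ closedBall x r) ≤ ENNReal.ofReal (B ^ 2 * (δ * √δ) * (r * √r))) →
    ∀ (f : E 3 → ℝ≥0∞), AEMeasurable f volume → (∀ x, x ∉ F → f x = 0) →
    ∫⁻ e : sphere (0 : E 3) 1, kmx δ f (e : E 3) ^ 3
        ∂((volume : Measure (E 3)).toSphere) ≤
      ENNReal.ofReal (C * B * δ ^ (-ε)) * ∫⁻ x, f x ^ 3 :=
  strongg (n := 3) (k := 1) (Gr := Gr) le_rfl (fun h => level5 h) hε

end Pool.Agent.H74.TG
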