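import Pool.Agent.H74.TE.Geo

/-!
The bound for one piece of one stem, without growth.
-/

set_option autoImplicit false

open MeasureTheory Set Metric
open scoped ENNReal NNReal

namespace Pool.Agent.H74.TG
open Pool.Agent.H74.TD Pool.Agent.H74.TE
open Pool.Agent.Y254
open Pool.Agent.TH705.RR (E vb vb_pos Rod sn sn_sq sn_nonneg sn_le_one)

variable {n : ℕ}

theorem piece_W (hn : 3 ≤ n) {ε : ℝ} (hε : 0 < ε) (hε1 : ε ≤ 1) :
    ∃ C : ℝ, 1 ≤ C ∧ ∀ (δ : ℝ), 0 < δ → δ < 1 → ∀ {ι : Type} [Fintype ι]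
    (a e : ι → E n), (∀ i, ‖e i‖ = 1) → (∀ i j, i ≠ j → δ ≤ ‖e i - e j‖) →
    (∀ i j, ‖e i - e j‖ ≤ 1) → ∀ (G : Set (E n)), MeasurableSet G →
    ∀ (μ : ℝ), 0 < μ →
    (∀ x ∈ G, mult (fun i => tube δ (a i) (e i)) x ≤ ENNReal.ofReal (2 * μ)) →
    ∀ (h : ℝ), 0 < h → h ≤ 1 → δ ≤ 4 * h → ∀ (i : ι) (p : ℤ) (θ : ℝ), δ ≤ θ → θ ≤ 1 →
    ∀ (J : Finset ι), (∀ j ∈ J, θ ≤ ‖e i - e j‖ ∧ ‖e i - e j‖ ≤ 2 * θ) →
    (∑ j ∈ J, ∫⁻ x, ((tube δ (a i) (e i) ∩ G ∩ piece (a i) (e i) (4 * h) p) ∩
        (tube δ (a j) (e j) ∩ G)).indicator 1 x *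
        fm volume (tube δ (a j) (e j) ∩ G) (far h) x) ^ 2 ≤
      volume G * (ENNReal.ofReal (C * (δ ^ (n - 1) * δ ^ (n - 1) * h ^ (-((n : ℝ) - 2)) *
        (δ / θ) * δ ^ (-ε) * μ)) *
        volume (tube δ (a i) (e i) ∩ G)) := by
  obtain ⟨C1, hC1, hrow⟩ := rowsum hn hε hε1
  have hCv := Cv_pos n
  set C2 : ℝ := 12 * Cv n * C1 with hC2
  refine ⟨24 * Cv n * C2 + 1, by
    have : 0 ≤ C2 := by positivity
    nlinarith [mul_nonneg hCv.le this], ?_⟩
  intro δ hδ hδ1 ι _ a e he hsep hpair G hG μ hμ hmul h hh hh1 hδh i p θ hθ hθ1 J hJ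
  classical
  have hn1 : 1 ≤ n := by omega
  have hθ0 : 0 < θ := by linarith
  set T : ι → Set (E n) := fun i => tube δ (a i) (e i) with hT
  have hTm : ∀ i, MeasurableSet (T i) := fun i => tube_meas _ _ _
  set A : ι → Set (E n) := fun i => T i ∩ G with hA
  have hAm : ∀ i, MeasurableSet (A i) := fun i => (hTm i).inter hG
  set B : Set (E n) := A i ∩ piece (a i) (e i) (4 * h) p with hB
  have hBm : MeasurableSet B := (hAm i).inter (piece_ms _ _ _ _)
  set b : ℝ := 12 * Cv n * δ ^ (n - 1) * (δ / θ) with hb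
  set R : ℝ := Cv n * 12 * δ ^ (n - 1) * (C1 * (h ^ (-((n : ℝ) - 2)) * (θ * h / δ) ^ ε)) with hR
  have hb0 : 0 ≤ b := by positivity
  have hR0 : 0 ≤ R := by positivity
  have hpairvol : ∀ j l', volume (A j ∩ A l') ≤
      ENNReal.ofReal (Cv n * 12 * δ ^ (n - 1) * (δ / max ‖e j - e l'‖ δ)) := by
    intro j l'
    have hsub : A j ∩ A l' ⊆ T j ∩ T l' := fun x hx => ⟨hx.1.1, hx.2.1⟩
    by_cases hjl : j = l'
    · subst hjl
      refine (measure_mono (hsub.trans inter_subset_left)).trans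
        ((vol_tube hn1 (he j) hδ hδ1).trans (ENNReal.ofReal_le_ofReal ?_))
      rw [sub_self, norm_zero, max_eq_right hδ.le, div_self hδ.ne', mul_one]
      have : 0 ≤ Cv n * δ ^ (n - 1) := by positivity
      nlinarith
    · have h1 := hsep j l' hjl
      refine (measure_mono hsub).trans ((vol_inter' hn1 hδ (he j) (he l') (hpair j l')
        (by linarith)).trans (le_of_eq ?_))
      rw [max_eq_left h1]
      congr 1
      ring
  set Br : ι → ι → Prop := fun j l => ∃ y ∈ A j ∩ A l, (∃ x ∈ B ∩ A j, (x, y) ∈ far h) ∧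
    (∃ x ∈ B ∩ A l, (x, y) ∈ far h) with hBr
  have key := brush (m := volume) (A := A) hAm (B := B) (D := G) hBm hG
    (far := far h) (far_ms h) J Br
    (fun j l => by
      constructor
      · rintro ⟨y, hy, h1, h2⟩
        exact ⟨y, ⟨hy.2, hy.1⟩, h2, h1⟩
      · rintro ⟨y, hy, h1, h2⟩
        exact ⟨y, ⟨hy.2, hy.1⟩, h2, h1⟩)
    (fun j hj x hx y hy hxy => hy.2)
    (fun j _ l _ y hy h1 h2 => ⟨y, hy, h1, h2⟩)
    (b := ENNReal.ofReal b) (R := ENNReal.ofReal R)
    (fun j hj => by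
      rw [hb]
      have hs : B ∩ A j ⊆ A i ∩ A j := fun x hx => ⟨hx.1.1, hx.2⟩
      refine (measure_mono hs).trans ((hpairvol i j).trans (ENNReal.ofReal_le_ofReal ?_))
      have h2 : δ / max ‖e i - e j‖ δ ≤ δ / θ := by
        gcongr
        exact (hJ j hj).1.trans (le_max_left _ _)
      calc Cv n * 12 * δ ^ (n - 1) * (δ / max ‖e i - e j‖ δ)
          ≤ Cv n * 12 * δ ^ (n - 1) * (δ / θ) := by gcongr
        _ = _ := by ring)
    (fun j hj => by
      have hij : 0 < ‖e i - e j‖ := by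
        have := (hJ j hj).1
        linarith
      have hsn : 0 < sn (e j) (e i) := by
        have h1 := sn_ge (he j) (he i) (hpair j i)
        rw [norm_sub_rev] at h1
        linarith
      set J' : Finset ι := J.filter (fun l' => Br j l') with hJ'
      have h1 := hrow δ hδ hδ1 e he hsep (e j) (dirn (e j) (e i)) (he j)
        (dirn_norm (he j) (he i) hsn) (dirn_inner (he j)) J' θ h hθ hh hh1 (by
          intro l' hl'
          obtain ⟨hl'J, hB'⟩ := Finset.mem_filter.1 hl'
          constructor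
          · have h2 : e j - e l' = (e i - e l') - (e i - e j) := by abel
            rw [h2]
            refine (norm_sub_le _ _).trans ?_
            have h3 := (hJ j hj).2
            have h4 := (hJ l' hl'J).2
            linarith
          · obtain ⟨y, hy, ⟨x, hx, hxy⟩, ⟨x'', hx'', hxy''⟩⟩ := hB'
            exact coplanar hδ (he i) (he j) (he l') hsn ⟨hx.1.1.1, hx.2.1⟩ ⟨hx''.1.1.1, hx''.2.1⟩
              ⟨hy.1.1, hy.2.1⟩ hxy''.1)
      rw [← Finset.sum_filter]
      calc ∑ l' ∈ J', volume (A j ∩ A l')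
          ≤ ∑ l' ∈ J', ENNReal.ofReal (Cv n * 12 * δ ^ (n - 1) * (δ / max ‖e j - e l'‖ δ)) :=
            Finset.sum_le_sum fun l' _ => hpairvol j l'
        _ = ENNReal.ofReal (Cv n * 12 * δ ^ (n - 1) * ∑ l' ∈ J', (δ / max ‖e j - e l'‖ δ)) := by
            rw [Finset.mul_sum, ENNReal.ofReal_sum_of_nonneg]
            intro l' _
            positivity
        _ ≤ _ := by
            apply ENNReal.ofReal_le_ofReal
            rw [hR]
            gcongr)
  refine key.trans ?_
  -- the mass of the intersections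
  have hmass : ∑ j ∈ J, volume (B ∩ A j) ≤ ENNReal.ofReal (2 * μ) * volume (A i) := by
    have hmA : ∀ x ∈ G, mult A x = mult T x := by
      intro x hx
      unfold mult
      refine Finset.sum_congr rfl fun i _ => ?_
      by_cases h1 : x ∈ T i
      · rw [indicator_of_mem h1, indicator_of_mem (show x ∈ A i from ⟨h1, hx⟩)]
      · rw [indicator_of_notMem h1, indicator_of_notMem (show x ∉ A i from fun hh => h1 hh.1)]
    calc ∑ j ∈ J, volume (B ∩ A j) ≤ ∑ j, volume (B ∩ A j) :=
          Finset.sum_le_sum_of_subset (Finset.subset_univ _)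
      _ = ∑ j, ∫⁻ x in B, (A j).indicator 1 x := by
          refine Finset.sum_congr rfl fun j _ => ?_
          rw [lintegral_indicator_one (hAm j), Measure.restrict_apply (hAm j), inter_comm]
      _ = ∫⁻ x in B, mult A x := by
          unfold mult
          rw [lintegral_finsetSum _ fun j _ => measurable_one.indicator (hAm j)]
      _ ≤ ∫⁻ _x in B, ENNReal.ofReal (2 * μ) := by
          apply setLIntegral_mono' hBm
          intro x hx
          rw [hmA x hx.1.2]
          exact hmul x hx.1.2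
      _ = ENNReal.ofReal (2 * μ) * volume B := by rw [setLIntegral_const]
      _ ≤ _ := by
          gcongr
          exact inter_subset_left
  calc volume G * (ENNReal.ofReal R * (ENNReal.ofReal b * ∑ j ∈ J, volume (B ∩ A j)))
      ≤ volume G * (ENNReal.ofReal R *
        (ENNReal.ofReal b * (ENNReal.ofReal (2 * μ) * volume (A i)))) := by gcongr
    _ = volume G * (ENNReal.ofReal (R * (b * (2 * μ))) * volume (A i)) := by
        rw [ENNReal.ofReal_mul hR0, ENNReal.ofReal_mul hb0]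
        ring
    _ ≤ _ := by
        refine mul_le_mul' le_rfl (mul_le_mul' (ENNReal.ofReal_le_ofReal ?_) le_rfl)
        have hε' : (θ * h / δ) ^ ε ≤ δ ^ (-ε) := by
          rw [Real.rpow_neg hδ.le, ← Real.inv_rpow hδ.le]
          apply Real.rpow_le_rpow (by positivity) _ hε.le
          rw [div_eq_mul_inv]
          have : θ * h ≤ 1 := mul_le_one₀ hθ1 hh.le hh1
          have h2 : 0 < δ⁻¹ := by positivity
          nlinarith
        have hHn : 0 ≤ h ^ (-((n : ℝ) - 2)) := by positivity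
        calc R * (b * (2 * μ))
            ≤ (Cv n * 12 * δ ^ (n - 1) * (C1 * (h ^ (-((n : ℝ) - 2)) * δ ^ (-ε)))) *
              (b * (2 * μ)) := by
              rw [hR]
              gcongr
          _ = (24 * Cv n * C2) * (δ ^ (n - 1) * δ ^ (n - 1) * h ^ (-((n : ℝ) - 2)) *
                (δ / θ) * δ ^ (-ε) * μ) := by
              rw [hC2, hb]
              ring
          _ ≤ _ := by
              gcongr
              linarith

end Pool.Agent.H74.TG
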