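import Pool.Agent.H74.TE.Level
import Pool.Agent.H74.TG.Piece

/-!
The bound for one level of the multiplicity and one broad cap of directions.
-/

set_option autoImplicit false

open MeasureTheory Set Metric
open scoped ENNReal NNReal

namespace Pool.Agent.H74.TG
open Pool.Agent.Y254 Pool.Agent.H74.TD Pool.Agent.H74.TE
open Pool.Agent.TH705.RR (E vb vb_pos Rod sn sn_sq sn_nonneg sn_le_one)

variable {n : ℕ}

/-- The statement of `piece_W`. -/
def PW (n : ℕ) (ε C : ℝ) : Prop := ∀ (δ : ℝ), 0 < δ → δ < 1 → ∀ {ι : Type} [Fintype ι]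
    (a e : ι → E n), (∀ i, ‖e i‖ = 1) → (∀ i j, i ≠ j → δ ≤ ‖e i - e j‖) →
    (∀ i j, ‖e i - e j‖ ≤ 1) → ∀ (G : Set (E n)), MeasurableSet G →
    ∀ (μ : ℝ), 0 < μ →
    (∀ x ∈ G, mult (fun i => tube δ (a i) (e i)) x ≤ ENNReal.ofReal (2 * μ)) →
    ∀ (h : ℝ), 0 < h → h ≤ 1 → δ ≤ 4 * h → ∀ (i : ι) (p : ℤ) (θ : ℝ), δ ≤ θ → θ ≤ 1 →
    ∀ (J : Finset ι), (∀ j ∈ J, θ ≤ ‖e i - e j‖ ∧ ‖e i - e j‖ ≤ 2 * θ) →
    (∑ j ∈ J, ∫⁻ x, ((tube δ (a i) (e i) ∩ G ∩ piece (a i) (e i) (4 * h) p) ∩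
        (tube δ (a j) (e j) ∩ G)).indicator 1 x *
        fm volume (tube δ (a j) (e j) ∩ G) (far h) x) ^ 2 ≤
      volume G * (ENNReal.ofReal (C * (δ ^ (n - 1) * δ ^ (n - 1) * h ^ (-((n : ℝ) - 2)) *
        (δ / θ) * δ ^ (-ε) * μ)) *
        volume (tube δ (a i) (e i) ∩ G))

/-- The pointwise lower bound for pairs in a symmetric relation. -/
theorem point_far {ι : Type} (R : Finset ι) (c : ι → Prop) [DecidablePred c]
    (rel : ι → ι → Prop) [DecidableRel rel] (hrel : ∀ i j, rel i j → rel j i)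
    (s : ι → ι → ℝ≥0∞) {w M : ℝ≥0∞}
    (hs : ∀ i ∈ R, ∀ j ∈ R, rel i j → c i → c j → w ≤ M * (s i j + s j i)) :
    w * (∑ i ∈ R, ∑ j ∈ R.filter (rel i), if c i ∧ c j then 1 else 0) ≤
      2 * M * ∑ i ∈ R, ∑ j ∈ R.filter (rel i), s i j := by
  have h1 : ∑ i ∈ R, ∑ j ∈ R.filter (rel i), s j i = ∑ i ∈ R, ∑ j ∈ R.filter (rel i), s i j := by
    apply Finset.sum_comm'
    intro i j
    simp only [Finset.mem_filter]
    constructor
    · rintro ⟨h1, h2, h3⟩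
      exact ⟨⟨h1, hrel _ _ h3⟩, h2⟩
    · rintro ⟨⟨h1, h2⟩, h3⟩
      exact ⟨h1, h3, hrel _ _ h2⟩
  calc w * (∑ i ∈ R, ∑ j ∈ R.filter (rel i), if c i ∧ c j then 1 else 0)
      = ∑ i ∈ R, ∑ j ∈ R.filter (rel i), (if c i ∧ c j then w else 0) := by
        rw [Finset.mul_sum]
        refine Finset.sum_congr rfl fun i _ => ?_
        rw [Finset.mul_sum]
        refine Finset.sum_congr rfl fun j _ => ?_
        split_ifs <;> simp
    _ ≤ ∑ i ∈ R, ∑ j ∈ R.filter (rel i), M * (s i j + s j i) := by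
        refine Finset.sum_le_sum fun i hi => Finset.sum_le_sum fun j hj => ?_
        obtain ⟨hj, hij⟩ := Finset.mem_filter.1 hj
        split_ifs with h
        · exact hs i hi j hj hij h.1 h.2
        · exact zero_le
    _ = M * (∑ i ∈ R, ∑ j ∈ R.filter (rel i), s i j) +
          M * (∑ i ∈ R, ∑ j ∈ R.filter (rel i), s j i) := by
        rw [← mul_add, ← Finset.sum_add_distrib, Finset.mul_sum]
        refine Finset.sum_congr rfl fun i _ => ?_
        rw [← Finset.sum_add_distrib, Finset.mul_sum]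
    _ = _ := by
        rw [h1]
        ring

theorem mult_card {X ι : Type} [Fintype ι] (T : ι → Set X) (x : X) [DecidablePred fun i => x ∈ T i] :
    mult T x = ((Finset.univ.filter (fun i => x ∈ T i)).card : ℝ≥0∞) := by
  unfold mult
  rw [Finset.card_filter]
  push_cast
  refine Finset.sum_congr rfl fun i _ => ?_
  by_cases h : x ∈ T i
  · rw [indicator_of_mem h, if_pos h]; rfl
  · rw [indicator_of_notMem h, if_neg h]

/-- Counting the pairs at a broad point. -/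
theorem broad_count {ι : Type} [Fintype ι] [DecidableEq ι] (R : Finset ι) (c : ι → Prop)
    [DecidablePred c] (rel : ι → ι → Prop) [DecidableRel rel] {β τ κ : ℝ} 
    (hβ : β = (1 - κ) * τ) (hβ0 : 0 ≤ β)
    (hbr : ∀ i, ((Finset.univ.filter (fun j => c j ∧ ¬ rel i j)).card : ℝ) ≤ β)
    (h1 : τ ≤ ((Finset.univ.filter c).card : ℝ)) (h2 : ((Finset.univ.filter c).card : ℝ) ≤ 4 * τ) :
    κ * τ * ((Finset.univ.filter c).card : ℝ) ≤
      ((∑ i ∈ R, ∑ j ∈ R.filter (rel i), if c i ∧ c j then 1 else 0 : ℕ) : ℝ) +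
        8 * τ * (((Finset.univ \ R).filter c).card : ℝ) := by
  set m : ℝ := ((Finset.univ.filter c).card : ℝ) with hm
  set q : ℝ := ((R.filter c).card : ℝ) with hq
  set d : ℝ := (((Finset.univ \ R).filter c).card : ℝ) with hd
  have hd0 : 0 ≤ d := Nat.cast_nonneg _
  have hq0 : 0 ≤ q := Nat.cast_nonneg _
  have hmqd : m = q + d := by
    have : Finset.univ.filter c = R.filter c ∪ (Finset.univ \ R).filter c := by
      rw [← Finset.filter_union]
      congr 1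
      exact (Finset.union_sdiff_of_subset (Finset.subset_univ R)).symm
    rw [hm, this, Finset.card_union_of_disjoint]
    · push_cast
      rfl
    · exact Finset.disjoint_filter_filter Finset.disjoint_sdiff
  have hP : q * (q - β) ≤
      ((∑ i ∈ R, ∑ j ∈ R.filter (rel i), if c i ∧ c j then 1 else 0 : ℕ) : ℝ) := by
    have e1 : (∑ i ∈ R, ∑ j ∈ R.filter (rel i), if c i ∧ c j then 1 else 0 : ℕ) =
        ∑ i ∈ R.filter c, ((R.filter (rel i)).filter c).card := by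
      rw [Finset.sum_filter]
      refine Finset.sum_congr rfl fun i _ => ?_
      by_cases hi : c i
      · rw [if_pos hi, Finset.card_filter]
        exact Finset.sum_congr rfl fun j _ => by simp [hi]
      · rw [if_neg hi]
        simp [hi]
    rw [e1]
    push_cast
    have e2 : ∀ i ∈ R.filter c, q - β ≤ (((R.filter (rel i)).filter c).card : ℝ) := by
      intro i _
      have e3 : (R.filter c).card ≤ ((R.filter (rel i)).filter c).card +
          (Finset.univ.filter (fun j => c j ∧ ¬ rel i j)).card := by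
        refine (Finset.card_le_card ?_).trans (Finset.card_union_le _ _)
        intro j hj
        obtain ⟨hjR, hjc⟩ := Finset.mem_filter.1 hj
        rw [Finset.mem_union]
        by_cases hr : rel i j
        · exact Or.inl (Finset.mem_filter.2 ⟨Finset.mem_filter.2 ⟨hjR, hr⟩, hjc⟩)
        · exact Or.inr (Finset.mem_filter.2 ⟨Finset.mem_univ _, hjc, hr⟩)
      have e4 : q ≤ (((R.filter (rel i)).filter c).card : ℝ) +
          ((Finset.univ.filter (fun j => c j ∧ ¬ rel i j)).card : ℝ) := by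
        rw [hq]
        exact_mod_cast e3
      have e5 := hbr i
      linarith
    calc q * (q - β) = ∑ _i ∈ R.filter c, (q - β) := by
          rw [Finset.sum_const, nsmul_eq_mul]
      _ ≤ _ := Finset.sum_le_sum e2
  refine le_trans ?_ (add_le_add hP le_rfl)
  have h3 : κ * τ ≤ m - β := by
    rw [hβ]
    linarith
  have h4 : κ * τ * m ≤ (m - β) * m := by
    have : 0 ≤ m := by rw [hmqd]; positivity
    gcongr
  nlinarith [mul_nonneg hd0 hβ0, mul_nonneg hd0 hd0, mul_nonneg hd0 (sub_nonneg.2 h2)]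

/-- The algebra. -/
theorem cap_alg {τ S N w P U V K L B H : ℝ} (hτ : 0 < τ) (hS : 0 < S) (hN : 0 < N)
    (hw : w = S / (32 * L * N)) (hK : 0 ≤ K) (hL : 0 < L) (hB : 0 ≤ B) (hH : 0 ≤ H)
    (h1 : w * P ≤ 4 * K * U) (h4 : τ * S / (4 * L) ≤ P) (h5 : U ≤ K * L * V) (h6 : V ≤ B * S)
    (h7 : V ≤ 6 * K * Real.sqrt (N * (H * (2 * τ) * S))) :
    (τ * S ^ 2) ^ 2 ≤ 9663676416 * (K ^ 8 * L ^ 9) * (B * H) * N ^ 4 := by
  have hw0 : 0 < w := by rw [hw]; positivity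
  have a6 : τ * S ^ 2 ≤ 512 * N * K ^ 2 * L ^ 3 * V := by
    have b1 : w * (τ * S / (4 * L)) ≤ 4 * K * (K * L * V) := by
      calc w * (τ * S / (4 * L)) ≤ w * P := by gcongr
        _ ≤ 4 * K * U := h1
        _ ≤ _ := by gcongr
    have b2 : w * (τ * S / (4 * L)) = τ * S ^ 2 / (128 * L ^ 2 * N) := by
      rw [hw]
      field_simp
      ring
    rw [b2, div_le_iff₀ (by positivity)] at b1
    calc τ * S ^ 2 ≤ 4 * K * (K * L * V) * (128 * L ^ 2 * N) := b1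
      _ = _ := by ring
  have hc : 0 ≤ 512 * N * K ^ 2 * L ^ 3 := by positivity
  have a7 : τ * S ≤ 512 * N * K ^ 2 * L ^ 3 * B := by
    have b1 : S * (τ * S) ≤ S * (512 * N * K ^ 2 * L ^ 3 * B) := by
      calc S * (τ * S) = τ * S ^ 2 := by ring
        _ ≤ 512 * N * K ^ 2 * L ^ 3 * V := a6
        _ ≤ 512 * N * K ^ 2 * L ^ 3 * (B * S) := by gcongr
        _ = _ := by ring
    exact le_of_mul_le_mul_left b1 hS
  have a9 : (τ * S ^ 2) ^ 2 ≤ (3072 * N * K ^ 3 * L ^ 3) ^ 2 * (N * (H * (2 * τ) * S)) := by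
    have b0 : τ * S ^ 2 ≤ 3072 * N * K ^ 3 * L ^ 3 * Real.sqrt (N * (H * (2 * τ) * S)) := by
      calc τ * S ^ 2 ≤ 512 * N * K ^ 2 * L ^ 3 * V := a6
        _ ≤ 512 * N * K ^ 2 * L ^ 3 * (6 * K * Real.sqrt (N * (H * (2 * τ) * S))) := by gcongr
        _ = _ := by ring
    calc (τ * S ^ 2) ^ 2 ≤ (3072 * N * K ^ 3 * L ^ 3 * Real.sqrt (N * (H * (2 * τ) * S))) ^ 2 := by
          gcongr
      _ = _ := by
          rw [mul_pow _ (Real.sqrt _), Real.sq_sqrt (by positivity)]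
  have a10 : τ * S ^ 3 ≤ 18874368 * N ^ 3 * K ^ 6 * L ^ 6 * H := by
    have : (τ * S) * (τ * S ^ 3) ≤ (τ * S) * (18874368 * N ^ 3 * K ^ 6 * L ^ 6 * H) := by
      calc (τ * S) * (τ * S ^ 3) = (τ * S ^ 2) ^ 2 := by ring
        _ ≤ _ := a9
        _ = _ := by ring
    exact le_of_mul_le_mul_left this (by positivity)
  calc (τ * S ^ 2) ^ 2 = (τ * S) * (τ * S ^ 3) := by ring
    _ ≤ (512 * N * K ^ 2 * L ^ 3 * B) * (18874368 * N ^ 3 * K ^ 6 * L ^ 6 * H) := by gcongr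
    _ = _ := by ring

/-- The product of the two bounds. -/
theorem prod_alg {δ θ h ρ c C CW K0 N r Dε : ℝ} (hδ : 0 < δ) (hθ : 0 < θ) (hh : 0 < h)
    (hρ : θ * h ≤ ρ) (hc : 0 ≤ c) (hC : 0 ≤ C) (hCW : 0 ≤ CW) (hK0 : 0 ≤ K0) (hr : 0 ≤ r)
    (hrθ : r ≤ 4 * θ) (hN : N ≤ K0 * (r / δ) ^ 2) (hD : 0 ≤ Dε) :
    Real.sqrt (CW * (δ ^ 2 * δ ^ 2 * h⁻¹ * (δ / θ) * Dε) * N) *
      (C * (c * δ ^ 3 * δ ^ 2 * (h ^ 2 * h⁻¹) * (√ρ)⁻¹ * Dε)) ≤
    4 * Real.sqrt (CW * K0) * C * (c * (δ ^ 6 * √δ) * (Dε * √Dε)) := by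
  have hρ0 : 0 < ρ := lt_of_lt_of_le (by positivity) hρ
  have e1 : CW * (δ ^ 2 * δ ^ 2 * h⁻¹ * (δ / θ) * Dε) * N ≤
      (4 * δ) ^ 2 * ((CW * K0) * (Dε * (δ * (θ * h⁻¹)))) := by
    calc CW * (δ ^ 2 * δ ^ 2 * h⁻¹ * (δ / θ) * Dε) * N
        ≤ CW * (δ ^ 2 * δ ^ 2 * h⁻¹ * (δ / θ) * Dε) * (K0 * ((4 * θ) / δ) ^ 2) := by
          gcongr
          refine hN.trans ?_
          gcongr
      _ = _ := by
          field_simp
  have e2 : Real.sqrt (CW * (δ ^ 2 * δ ^ 2 * h⁻¹ * (δ / θ) * Dε) * N) ≤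
      4 * δ * (Real.sqrt (CW * K0) * (√Dε * (√δ * √(θ * h⁻¹)))) := by
    refine (Real.sqrt_le_sqrt e1).trans (le_of_eq ?_)
    rw [Real.sqrt_mul (by positivity), Real.sqrt_sq (by positivity),
      Real.sqrt_mul (by positivity), Real.sqrt_mul hD, Real.sqrt_mul hδ.le]
  have e3 : (√ρ)⁻¹ ≤ (√(θ * h))⁻¹ := by
    apply inv_anti₀
    · exact Real.sqrt_pos.2 (by positivity)
    · exact Real.sqrt_le_sqrt hρ
  have e4 : √(θ * h⁻¹) * (h * (√(θ * h))⁻¹) = 1 := by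
    have h1 : √(θ * h) = h * √(θ * h⁻¹) := by
      have : θ * h = h ^ 2 * (θ * h⁻¹) := by
        field_simp
      conv_lhs => rw [this, Real.sqrt_mul (by positivity), Real.sqrt_sq hh.le]
    have h2 : 0 < √(θ * h⁻¹) := Real.sqrt_pos.2 (by positivity)
    rw [h1]
    field_simp
  have e5 : h ^ 2 * h⁻¹ = h := by field_simp
  calc Real.sqrt (CW * (δ ^ 2 * δ ^ 2 * h⁻¹ * (δ / θ) * Dε) * N) *
      (C * (c * δ ^ 3 * δ ^ 2 * (h ^ 2 * h⁻¹) * (√ρ)⁻¹ * Dε))
      ≤ (4 * δ * (Real.sqrt (CW * K0) * (√Dε * (√δ * √(θ * h⁻¹))))) *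
        (C * (c * δ ^ 3 * δ ^ 2 * h * (√(θ * h))⁻¹ * Dε)) := by
        rw [e5]
        gcongr
    _ = 4 * Real.sqrt (CW * K0) * C * (c * (δ ^ 6 * √δ) * (Dε * √Dε)) *
        (√(θ * h⁻¹) * (h * (√(θ * h))⁻¹)) := by ring
    _ = _ := by rw [e4, mul_one]

end Pool.Agent.H74.TG
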