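import Pool.Agent.H74.TG.CapLevel
import Pool.Agent.H74.TD.Choose
import Pool.Agent.H74.TE.Bush
import Pool.Graph.R_seed8.Y254.Ind

/-!
The choice of the number of scales in one cap.
-/

set_option autoImplicit false

open MeasureTheory Set Metric
open scoped ENNReal NNReal

namespace Pool.Agent.H74.TG
open Pool.Agent.Y254 Pool.Agent.H74.TD Pool.Agent.H74.TE
open Pool.Agent.TH705.RR (E vb vb_pos Rod sn sn_sq sn_nonneg sn_le_one)

/-- The statement of `cap_bound`. -/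
def CB (ε K1 C : ℝ) : Prop := ∀ (δ : ℝ), 0 < δ → δ < 1 →
    ∀ {ι : Type} [Fintype ι] (a e : ι → E 3), (∀ i, ‖e i‖ = 1) →
    (∀ i j, i ≠ j → δ ≤ ‖e i - e j‖) → (∀ i j, ‖e i - e j‖ ≤ 1) →
    ∀ (F G : Set (E 3)), MeasurableSet G → G ⊆ F → ∀ (B : ℝ), 1 ≤ B →
    (∀ (x : E 3) (r : ℝ), δ ≤ r → r ≤ 32 →
      volume (F ∩ closedBall x r) ≤ ENNReal.ofReal (B ^ 2 * (δ * √δ) * (r * √r))) →
    ∀ (τ : ℝ), 0 < τ →
    (∀ x ∈ G, mult (fun i => tube δ (a i) (e i)) x ≤ ENNReal.ofReal (4 * τ)) →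
    (∀ x ∈ G, ENNReal.ofReal τ ≤ mult (fun i => tube δ (a i) (e i)) x) →
    ∀ (L : ℕ), 1 ≤ L → 1 < 2 ^ L * δ → 2 ^ L ≤ 2 / δ → ∀ (r : ℝ), 0 < r →
    (∀ x ∈ G, ∀ i, ∀ Q : Finset ι, (∀ j ∈ Q, x ∈ tube δ (a j) (e j) ∧ ‖e i - e j‖ ≤ r / 2) →
      (Q.card : ℝ) ≤ (1 - 1 / (2 * L)) * τ) →
    (Fintype.card ι : ℝ) ≤ K1 * (r / δ) ^ 2 →
    ∀ (S : ℝ), 0 ≤ S → ∫⁻ x in G, mult (fun i => tube δ (a i) (e i)) x = ENNReal.ofReal S →
    τ * S ^ 2 ≤ C * B * δ ^ (-ε) * ((Fintype.card ι : ℝ) * δ ^ 2) ^ 2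

theorem cap_bound {ε : ℝ} (hε : 0 < ε) {K1 : ℝ} (hK1 : 1 ≤ K1) : ∃ C : ℝ, 1 ≤ C ∧ CB ε K1 C := by
  have hn : 3 ≤ 3 := le_rfl
  have hn1 : 1 ≤ 3 := by omega
  have hCv := Cv_pos 3
  obtain ⟨ε', hε'0, hε'1, hε'ε⟩ : ∃ ε' : ℝ, 0 < ε' ∧ ε' ≤ 1 ∧ ε' ≤ ε / 4 :=
    ⟨min (ε / 4) 1, lt_min (by positivity) one_pos, min_le_right _ _, min_le_left _ _⟩
  obtain ⟨C, hC1, hPB⟩ := H74.TE.piece_bound (n := 3) hn hε'0 hε'1
  have hPB' : PB3 3 ε' C := hPB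
  obtain ⟨CW, hCW1, hPW⟩ := piece_W (n := 3) hn hε'0 hε'1
  have hPW' : PW 3 ε' CW := hPW
  obtain ⟨Cη, hCη1, hlog⟩ := log_bound (η := ε / 36) (by positivity)
  obtain ⟨K0, hK01, hcount⟩ := Pool.Agent.TH705.RR.count (n := 3) hn1
  set D2 : ℝ := K0 * (64 * Cv 3) ^ 2 * (Cη ^ 2 * 4 ^ (ε / 18)) with hD2
  set D3 : ℝ := √(463856467968 * (Cη ^ 18 * 4 ^ (ε / 2)) * (√(CW * K1) * C)) with hD3
  have hD20 : 0 ≤ D2 := by positivity
  have hD30 : 0 ≤ D3 := by positivity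
  refine ⟨1 + D2 + D3, by linarith, ?_⟩
  intro δ hδ hδ1 ι _ a e he hsep hpair F G hG hGF B hB hF τ hτ hmul hmul2 L hL1 hLδ hL2 r hr hbr hN1
    S hS0 hS
  classical
  set T : ι → Set (E 3) := fun i => tube δ (a i) (e i) with hT
  set N : ℝ := (Fintype.card ι : ℝ) with hN
  have hN00 : 0 ≤ N := by positivity
  set M : ℝ := N * δ ^ 2 with hM
  have hM0 : 0 ≤ M := by positivity
  have hLr : (1 : ℝ) ≤ L := by exact_mod_cast hL1
  have hL0 : (0 : ℝ) < L := by linarith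
  have hδε : 1 ≤ δ ^ (-ε) := by
    apply Real.one_le_rpow_of_pos_of_le_one_of_nonpos hδ hδ1.le
    linarith
  -- it suffices to prove one of the bounds
  have hsuff : ∀ D : ℝ, D ≤ 1 + D2 + D3 → τ * S ^ 2 ≤ D * (B * δ ^ (-ε) * M ^ 2) →
      τ * S ^ 2 ≤ (1 + D2 + D3) * B * δ ^ (-ε) * M ^ 2 := by
    intro D hD h
    calc τ * S ^ 2 ≤ D * (B * δ ^ (-ε) * M ^ 2) := h
      _ ≤ (1 + D2 + D3) * (B * δ ^ (-ε) * M ^ 2) := by gcongr
      _ = _ := by ring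
  rcases hS0.eq_or_lt with hSz | hSpos
  · apply hsuff 0 (by linarith)
    rw [← hSz, zero_pow two_ne_zero]
    simp
  -- the mass
  have hmassE : ENNReal.ofReal S ≤ ENNReal.ofReal (2 * Cv 3 * M) := by
    rw [← hS]
    exact (setLIntegral_le_lintegral _ _).trans (mass hn1 hδ hδ1 a e he)
  have hmass : S ≤ 2 * Cv 3 * M := (ENNReal.ofReal_le_ofReal_iff (by positivity)).1 hmassE
  have hMpos : 0 < M := by
    by_contra hcon
    have : M = 0 := le_antisymm (not_lt.1 hcon) hM0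
    rw [this] at hmass
    linarith
  have hNpos : 0 < N := by
    by_contra hcon
    have : N = 0 := le_antisymm (not_lt.1 hcon) hN00
    rw [hM, this, zero_mul] at hMpos
    exact lt_irrefl _ hMpos
  have hLlog : (L : ℝ) ≤ Cη * (4 / δ) ^ (ε / 36) := by
    apply hlog L (4 / δ) (by positivity)
    refine hL2.trans ?_
    gcongr
    norm_num
  have hCη0 : 0 < Cη := by linarith
  rcases le_or_gt S (64 * Cv 3 * L * δ * M) with hsmall | hbig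
  · -- few points
    apply hsuff D2 (by linarith)
    have hτN : τ ≤ N := by
      by_contra hcon
      rw [not_le] at hcon
      have hGe : G = ∅ := by
        rw [Set.eq_empty_iff_forall_notMem]
        intro x hx
        have h1 := (hmul2 x hx).trans (mult_le T x)
        rw [← ENNReal.ofReal_natCast] at h1
        have h2 := (ENNReal.ofReal_le_ofReal_iff hN00).1 h1
        linarith
      rw [hGe] at hS
      simp only [Measure.restrict_empty, lintegral_zero_measure] at hS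
      have := (ENNReal.ofReal_eq_zero.1 hS.symm)
      linarith
    have hNcount : N ≤ K0 * (1 / δ) ^ (3 - 1) := by
      obtain ⟨i0⟩ : Nonempty ι := by
        rw [← Fintype.card_pos_iff]
        have h9 := hNpos
        rw [hN] at h9
        exact_mod_cast h9
      have h1 := hcount δ hδ hδ1 e he hsep (e i0) (he i0) Finset.univ 1 hδ1.le
        (fun j _ => sn_le_one _ _)
      rwa [Finset.card_univ] at h1
    have h3 : (1 / δ) ^ 2 * δ ^ 2 = 1 := by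
      rw [← mul_pow, one_div, inv_mul_cancel₀ hδ.ne', one_pow]
    have hL2' : (L : ℝ) ^ 2 ≤ (Cη ^ 2 * 4 ^ (ε / 18)) * δ ^ (-ε) := by
      calc (L : ℝ) ^ 2 ≤ (Cη * (4 / δ) ^ (ε / 36)) ^ 2 := by gcongr
        _ = Cη ^ 2 * ((4 / δ) ^ (ε / 36)) ^ 2 := by ring
        _ = Cη ^ 2 * (4 / δ) ^ (ε / 18) := by
            rw [← Real.rpow_natCast ((4 / δ) ^ (ε / 36)) 2, ← Real.rpow_mul (by positivity)]
            congr 2
            push_cast
            ring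
        _ = (Cη ^ 2 * 4 ^ (ε / 18)) * δ ^ (-(ε / 18)) := by
            rw [Real.div_rpow (by norm_num) hδ.le, Real.rpow_neg hδ.le]
            ring
        _ ≤ _ := by
            gcongr ?_ * ?_
            apply Real.rpow_le_rpow_of_exponent_ge hδ hδ1.le
            linarith
    calc τ * S ^ 2 ≤ (K0 * (1 / δ) ^ 2) * (64 * Cv 3 * L * δ * M) ^ 2 := by
          gcongr
          exact hτN.trans hNcount
      _ = K0 * (64 * Cv 3) ^ 2 * (L : ℝ) ^ 2 * M ^ 2 * ((1 / δ) ^ 2 * δ ^ 2) := by ring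
      _ = K0 * (64 * Cv 3) ^ 2 * (L : ℝ) ^ 2 * M ^ 2 := by rw [h3, mul_one]
      _ ≤ K0 * (64 * Cv 3) ^ 2 * ((Cη ^ 2 * 4 ^ (ε / 18)) * δ ^ (-ε)) * M ^ 2 := by gcongr
      _ = D2 * (1 * δ ^ (-ε) * M ^ 2) := by
          rw [hD2]
          ring
      _ ≤ _ := by gcongr
  -- the main case
  apply hsuff D3 (by linarith)
  set lam : ℝ := S / M with hlam
  have hlam0 : 0 < lam := by positivity
  have hSlam : S = lam * M := by rw [hlam]; field_simp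
  have hlam2 : lam ≤ 2 * Cv 3 := by
    rw [hlam, div_le_iff₀ hMpos]
    exact hmass
  have hlamδ : 64 * Cv 3 * L * δ < lam := by
    rw [hlam, lt_div_iff₀ hMpos]
    exact hbig
  have hx0 : 0 < lam / (128 * Cv 3 * L) := by positivity
  have hx1 : lam / (128 * Cv 3 * L) ≤ 1 := by
    rw [div_le_one (by positivity)]
    nlinarith [mul_le_mul_of_nonneg_left hLr hCv.le]
  obtain ⟨m, hm1, hm2⟩ := exists_nat_pow_near_of_lt_one hx0 hx1 (y := (1 / 2 : ℝ)) (by norm_num)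
    (by norm_num)
  set K : ℕ := m + 1 with hK
  have hKx : (1 / 2 : ℝ) ^ K * (128 * Cv 3 * L) < lam := by
    rwa [lt_div_iff₀ (by positivity)] at hm1
  have hKx2 : lam ≤ 256 * Cv 3 * L * (1 / 2) ^ K := by
    rw [div_le_iff₀ (by positivity)] at hm2
    calc lam ≤ (1 / 2) ^ m * (128 * Cv 3 * L) := hm2
      _ = _ := by rw [hK, pow_succ]; ring
  have hCL : 0 < 64 * Cv 3 * L := by positivity
  have hKδ : δ ≤ 4 * (1 / 2) ^ K := by
    have h1 : 64 * Cv 3 * L * δ < 256 * Cv 3 * L * (1 / 2) ^ K := hlamδ.trans_le hKx2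
    have h2 : 64 * Cv 3 * L * δ < 64 * Cv 3 * L * (4 * (1 / 2) ^ K) := by linarith
    exact (lt_of_mul_lt_mul_left h2 hCL.le).le
  have hSK : 128 * Cv 3 * L * N * (1 / 2) ^ K * δ ^ 2 ≤ S := by
    rw [hSlam, hM]
    calc 128 * Cv 3 * L * N * (1 / 2) ^ K * δ ^ 2 =
          ((1 / 2) ^ K * (128 * Cv 3 * L)) * (N * δ ^ 2) := by ring
      _ ≤ lam * (N * δ ^ 2) := by gcongr
  have hA₀0 : 0 ≤ B ^ 2 * (δ * √δ) := by positivity
  have key := cap_level (by linarith) (by linarith) hK1 hPB' hPW' hδ hδ1 a e he hsep hpair hG hGF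
    hA₀0 hF hτ hmul hmul2 (K := K) (L := L) (by omega) hKδ hL1 hLδ hr hbr hN1 hSpos hS hSK
  have h2K : (2 : ℝ) ^ K ≤ 4 / δ := by
    rw [le_div_iff₀ hδ]
    calc (2 : ℝ) ^ K * δ ≤ 2 ^ K * (4 * (1 / 2) ^ K) := by gcongr
      _ = 4 * (2 * (1 / 2)) ^ K := by rw [mul_pow 2 (1 / 2 : ℝ) K]; ring
      _ = 4 := by norm_num
  have hKlog := hlog K (4 / δ) (by positivity) h2K
  have hKL : (K : ℝ) ^ 9 * (L : ℝ) ^ 9 ≤ (Cη ^ 18 * 4 ^ (ε / 2)) * δ ^ (-(ε / 2)) := by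
    calc (K : ℝ) ^ 9 * (L : ℝ) ^ 9 ≤
          (Cη * (4 / δ) ^ (ε / 36)) ^ 9 * (Cη * (4 / δ) ^ (ε / 36)) ^ 9 := by
          gcongr
      _ = Cη ^ 18 * ((4 / δ) ^ (ε / 36)) ^ 18 := by ring
      _ = Cη ^ 18 * (4 / δ) ^ (ε / 2) := by
          rw [← Real.rpow_natCast ((4 / δ) ^ (ε / 36)) 18, ← Real.rpow_mul (by positivity)]
          congr 2
          push_cast
          ring
      _ = _ := by
          rw [Real.div_rpow (by norm_num) hδ.le, Real.rpow_neg hδ.le]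
          ring
  have hδε1 : 1 ≤ δ ^ (-ε') := by
    apply Real.one_le_rpow_of_pos_of_le_one_of_nonpos hδ hδ1.le
    linarith
  have hδε2 : δ ^ (-ε') * √(δ ^ (-ε')) ≤ δ ^ (-(ε / 2)) := by
    have h1 : √(δ ^ (-ε')) ≤ δ ^ (-ε') := by
      rw [Real.sqrt_le_left (by positivity)]
      nlinarith
    calc δ ^ (-ε') * √(δ ^ (-ε')) ≤ δ ^ (-ε') * δ ^ (-ε') := by gcongr
      _ = δ ^ (-ε' + -ε') := by rw [← Real.rpow_add hδ]
      _ ≤ _ := by
          apply Real.rpow_le_rpow_of_exponent_ge hδ hδ1.le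
          linarith
  have hexp : δ ^ (-(ε / 2)) * δ ^ (-(ε / 2)) = δ ^ (-ε) := by
    rw [← Real.rpow_add hδ]
    congr 1
    ring
  have hC0 : 0 ≤ C := by linarith
  have hδ8 : B ^ 2 * (δ * √δ) * (δ ^ 6 * √δ) * N ^ 4 = B ^ 2 * M ^ 4 := by
    have h1 : √δ ^ 2 = δ := Real.sq_sqrt hδ.le
    calc B ^ 2 * (δ * √δ) * (δ ^ 6 * √δ) * N ^ 4 = B ^ 2 * (δ ^ 7 * √δ ^ 2) * N ^ 4 := by ring
      _ = B ^ 2 * (δ ^ 7 * δ) * N ^ 4 := by rw [h1]
      _ = _ := by rw [hM]; ring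
  have hD3sq : D3 ^ 2 = 463856467968 * (Cη ^ 18 * 4 ^ (ε / 2)) * (√(CW * K1) * C) := by
    rw [hD3]
    exact Real.sq_sqrt (by positivity)
  have key2 : (τ * S ^ 2) ^ 2 ≤ (D3 * (B * δ ^ (-ε) * M ^ 2)) ^ 2 := by
    calc (τ * S ^ 2) ^ 2 ≤ 463856467968 * ((K : ℝ) ^ 9 * (L : ℝ) ^ 9) *
          (√(CW * K1) * C * (B ^ 2 * (δ * √δ) * (δ ^ 6 * √δ) * (δ ^ (-ε') * √(δ ^ (-ε'))))) *
          N ^ 4 := key
      _ ≤ 463856467968 * ((Cη ^ 18 * 4 ^ (ε / 2)) * δ ^ (-(ε / 2))) *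
          (√(CW * K1) * C * (B ^ 2 * (δ * √δ) * (δ ^ 6 * √δ) * δ ^ (-(ε / 2)))) *
          N ^ 4 := by gcongr
      _ = (463856467968 * (Cη ^ 18 * 4 ^ (ε / 2)) * (√(CW * K1) * C)) *
          (δ ^ (-(ε / 2)) * δ ^ (-(ε / 2))) *
          (B ^ 2 * (δ * √δ) * (δ ^ 6 * √δ) * N ^ 4) := by ring
      _ = D3 ^ 2 * δ ^ (-ε) * (B ^ 2 * M ^ 4) := by rw [hexp, hδ8, hD3sq]
      _ ≤ D3 ^ 2 * (δ ^ (-ε) * δ ^ (-ε)) * (B ^ 2 * M ^ 4) := by
          gcongr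
          exact le_mul_of_one_le_right (by positivity) hδε
      _ = _ := by ring
  exact (pow_le_pow_iff_left₀ (by positivity) (by positivity) two_ne_zero).1 key2

end Pool.Agent.H74.TG
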