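import Pool.Agent.H74.TG.Cap

/-!
The bound for one level of the multiplicity and one broad cap of directions.
-/

set_option autoImplicit false

open MeasureTheory Set Metric
open scoped ENNReal NNReal

namespace Pool.Agent.H74.TG
open Pool.Agent.Y254 Pool.Agent.H74.TD Pool.Agent.H74.TE
open Pool.Agent.TH705.RR (E vb vb_pos Rod sn sn_sq sn_nonneg sn_le_one)

/-- The bound for one level of the multiplicity and one cap. -/
theorem cap_level {ε C CW K0 : ℝ} (hC : 0 < C) (hCW : 0 < CW) (hK0 : 1 ≤ K0) (hPB : PB3 3 ε C)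
    (hPW : PW 3 ε CW) {δ : ℝ} (hδ : 0 < δ) (hδ1 : δ < 1) {ι : Type} [Fintype ι] [DecidableEq ι]
    (a e : ι → E 3) (he : ∀ i, ‖e i‖ = 1) (hsep : ∀ i j, i ≠ j → δ ≤ ‖e i - e j‖)
    (hpair : ∀ i j, ‖e i - e j‖ ≤ 1) {F G : Set (E 3)} (hG : MeasurableSet G) (hGF : G ⊆ F)
    {c : ℝ} (hc : 0 ≤ c)
    (hF : ∀ (x : E 3) (r : ℝ), δ ≤ r → r ≤ 32 → volume (F ∩ closedBall x r) ≤ ENNReal.ofReal (c * (r * √r)))
    {τ : ℝ} (hτ : 0 < τ)
    (hmul : ∀ x ∈ G, mult (fun i => tube δ (a i) (e i)) x ≤ ENNReal.ofReal (4 * τ))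
    (hmul2 : ∀ x ∈ G, ENNReal.ofReal τ ≤ mult (fun i => tube δ (a i) (e i)) x)
    {K L : ℕ} (hK1 : 1 ≤ K) (hKδ : δ ≤ 4 * (1 / 2) ^ K) (hL1 : 1 ≤ L) (hL : 1 < 2 ^ L * δ)
    {r : ℝ} (hr : 0 < r)
    (hbr : ∀ x ∈ G, ∀ i, ∀ Q : Finset ι, (∀ j ∈ Q, x ∈ tube δ (a j) (e j) ∧ ‖e i - e j‖ ≤ r / 2) →
      (Q.card : ℝ) ≤ (1 - 1 / (2 * L)) * τ)
    (hN : (Fintype.card ι : ℝ) ≤ K0 * (r / δ) ^ 2) {S : ℝ}
    (hS0 : 0 < S)
    (hS : ∫⁻ x in G, mult (fun i => tube δ (a i) (e i)) x = ENNReal.ofReal S)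
    (hSK : 128 * Cv 3 * L * (Fintype.card ι : ℝ) * (1 / 2) ^ K * δ ^ 2 ≤ S) :
    (τ * S ^ 2) ^ 2 ≤ 463856467968 * ((K : ℝ) ^ 9 * (L : ℝ) ^ 9) *
      (Real.sqrt (CW * K0) * C * (c * (δ ^ 6 * √δ) * (δ ^ (-ε) * √(δ ^ (-ε))))) *
      (Fintype.card ι : ℝ) ^ 4 := by
  classical
  have hCv := Cv_pos 3
  have hn1 : 1 ≤ 3 := by norm_num
  have hLr : (1 : ℝ) ≤ L := by exact_mod_cast hL1
  have hL0 : (0 : ℝ) < L := by linarith
  set N : ℝ := (Fintype.card ι : ℝ) with hNdef
  set T : ι → Set (E 3) := fun i => tube δ (a i) (e i) with hT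
  have hTm : ∀ i, MeasurableSet (T i) := fun i => tube_meas _ _ _
  set A : ι → Set (E 3) := fun i => T i ∩ G with hA
  have hAm : ∀ i, MeasurableSet (A i) := fun i => (hTm i).inter hG
  have hfin : ∀ i, volume (A i) ≠ ∞ := fun i => ne_top_of_le_ne_top ENNReal.ofReal_ne_top
    ((measure_mono (inter_subset_left : A i ⊆ T i)).trans (vol_tube hn1 (he i) hδ hδ1))
  set v : ι → ℝ := fun i => (volume (A i)).toReal with hv
  have hv0 : ∀ i, 0 ≤ v i := fun i => ENNReal.toReal_nonneg
  have hve : ∀ i, volume (A i) = ENNReal.ofReal (v i) := fun i =>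
    (ENNReal.ofReal_toReal (hfin i)).symm
  have hmA : ∀ x ∈ G, mult A x = mult T x := by
    intro x hx
    unfold mult
    refine Finset.sum_congr rfl fun i _ => ?_
    by_cases h1 : x ∈ T i
    · rw [indicator_of_mem h1, indicator_of_mem (show x ∈ A i from ⟨h1, hx⟩)]
    · rw [indicator_of_notMem h1, indicator_of_notMem (show x ∉ A i from fun hh => h1 hh.1)]
  have hmA0 : ∀ x, x ∉ G → mult A x = 0 := by
    intro x hx
    unfold mult
    exact Finset.sum_eq_zero fun i _ => indicator_of_notMem (fun hh => hx hh.2) _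
  have hint : ∫⁻ x, mult A x = ENNReal.ofReal S := by
    rw [← hS, ← lintegral_indicator hG]
    apply lintegral_congr
    intro x
    by_cases hx : x ∈ G
    · rw [indicator_of_mem hx, hmA x hx]
    · rw [indicator_of_notMem hx, hmA0 x hx]
  have hvS : ∑ i, v i = S := by
    have h1 : ENNReal.ofReal (∑ i, v i) = ENNReal.ofReal S := by
      rw [ENNReal.ofReal_sum_of_nonneg fun i _ => hv0 i, ← hint, lint_mult volume hAm]
      exact Finset.sum_congr rfl fun i _ => (hve i).symm
    have h2 := congrArg ENNReal.toReal h1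
    rwa [ENNReal.toReal_ofReal (Finset.sum_nonneg fun i _ => hv0 i),
      ENNReal.toReal_ofReal hS0.le] at h2
  have hN0 : 0 < N := by
    rcases Nat.eq_zero_or_pos (Fintype.card ι) with h0 | h0
    · have : IsEmpty ι := Fintype.card_eq_zero_iff.1 h0
      rw [Finset.univ_eq_empty, Finset.sum_empty] at hvS
      linarith
    · rw [hNdef]
      exact_mod_cast h0
  set w : ℝ := S / (32 * L * N) with hw
  have hw0 : 0 < w := by positivity
  have hwK : 2 * (Cv 3 * (2 * (1 / 2) ^ K) * δ ^ (3 - 1)) ≤ w := by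
    rw [hw, le_div_iff₀ (by positivity)]
    calc 2 * (Cv 3 * (2 * (1 / 2) ^ K) * δ ^ (3 - 1)) * (32 * L * N)
        = 128 * Cv 3 * L * N * (1 / 2) ^ K * δ ^ 2 := by norm_num; ring
      _ ≤ S := hSK
  set R : Finset ι := Finset.univ.filter (fun i => w ≤ v i) with hR
  set rel : ι → ι → Prop := fun i j => r / 2 < ‖e i - e j‖ with hrel
  set PR : ι → Finset ι := fun i => R.filter (rel i) with hPR
  set u : E 3 → ℝ≥0∞ := fun x => ∑ i ∈ R, ∑ j ∈ PR i, sd (A i) (A j) (a i) (e i) K x with hu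
  set pr : E 3 → ℝ≥0∞ := fun x => ∑ i ∈ R, ∑ j ∈ PR i, if x ∈ A i ∧ x ∈ A j then 1 else 0 with hpr
  have hpr' : ∀ x, pr x = ∑ i ∈ R, ∑ j ∈ PR i, (A i ∩ A j).indicator 1 x := by
    intro x
    refine Finset.sum_congr rfl fun i _ => Finset.sum_congr rfl fun j _ => ?_
    by_cases h : x ∈ A i ∩ A j
    · rw [if_pos (show x ∈ A i ∧ x ∈ A j from h), indicator_of_mem h]; rfl
    · rw [if_neg (show ¬ (x ∈ A i ∧ x ∈ A j) from h), indicator_of_notMem h]
  have hpm : Measurable pr := by
    have : pr = fun x => ∑ i ∈ R, ∑ j ∈ PR i, (A i ∩ A j).indicator 1 x := funext hpr'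
    rw [this]
    exact Finset.measurable_sum _ fun i _ => Finset.measurable_sum _ fun j _ =>
      measurable_one.indicator ((hAm i).inter (hAm j))
  have hum : Measurable u := Finset.measurable_sum _ fun i _ => Finset.measurable_sum _ fun j _ =>
    sd_meas (hAm i) (hAm j) _ _ _
  -- the pointwise bound
  have hpt : ∀ x, ENNReal.ofReal w * pr x ≤ 2 * (2 * K : ℕ) * u x := by
    intro x
    refine point_far R (fun i => x ∈ A i) rel (fun i j h => by
      show r / 2 < ‖e j - e i‖
      rw [norm_sub_rev]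
      exact h) (fun i j => sd (A i) (A j) (a i) (e i) K x) ?_
    intro i hi j hj hij hxi hxj
    have hwi : ENNReal.ofReal w ≤ volume (A i) := by
      rw [hve]
      exact ENNReal.ofReal_le_ofReal (Finset.mem_filter.1 hi).2
    have hwj : ENNReal.ofReal w ≤ volume (A j) := by
      rw [hve]
      exact ENNReal.ofReal_le_ofReal (Finset.mem_filter.1 hj).2
    exact sd_pair hn1 (he i) (he j) hδ hδ1 (hAm i) (hAm j) inter_subset_left inter_subset_left hK1
      (ENNReal.ofReal_le_ofReal hwK) hwi hwj hxi hxj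
  have hI1 : ENNReal.ofReal w * (∫⁻ x, pr x) ≤ 2 * (2 * K : ℕ) * ∫⁻ x, u x := by
    rw [← lintegral_const_mul _ hpm, ← lintegral_const_mul _ hum]
    exact lintegral_mono hpt
  -- the broad points
  set κ : ℝ := 1 / (2 * L) with hκ
  have hκ0 : 0 < κ := by positivity
  have hκ1 : κ ≤ 1 := by
    rw [hκ, div_le_one (by positivity)]
    linarith
  have hbroad : ∀ x, ENNReal.ofReal (κ * τ) * mult A x ≤
      pr x + ENNReal.ofReal (8 * τ) * ∑ i ∈ Finset.univ \ R, (A i).indicator 1 x := by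
    intro x
    by_cases hx : x ∈ G
    · have hmc := mult_card A x
      set m : ℕ := (Finset.univ.filter (fun i => x ∈ A i)).card with hm
      have h1 : τ ≤ (m : ℝ) := by
        have h1 := hmul2 x hx
        rw [← hmA x hx, hmc, ← ENNReal.ofReal_natCast] at h1
        exact (ENNReal.ofReal_le_ofReal_iff (Nat.cast_nonneg _)).1 h1
      have h2 : (m : ℝ) ≤ 4 * τ := by
        have h1 := hmul x hx
        rw [← hmA x hx, hmc, ← ENNReal.ofReal_natCast] at h1
        exact (ENNReal.ofReal_le_ofReal_iff (by positivity)).1 h1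
      have h3 := broad_count R (fun i => x ∈ A i) rel (β := (1 - κ) * τ) (τ := τ) (κ := κ) rfl
        (mul_nonneg (by linarith) hτ.le) (fun i => by
          refine hbr x hx i _ ?_
          intro j hj
          obtain ⟨-, hj1, hj2⟩ := Finset.mem_filter.1 hj
          exact ⟨hj1.1, not_lt.1 hj2⟩) h1 h2
      rw [← hm] at h3
      have e1 : pr x = ENNReal.ofReal ((∑ i ∈ R, ∑ j ∈ R.filter (rel i),
          if x ∈ A i ∧ x ∈ A j then 1 else 0 : ℕ) : ℝ) := by
        rw [ENNReal.ofReal_natCast, hpr]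
        push_cast
        rfl
      have e2 : ∑ i ∈ Finset.univ \ R, (A i).indicator (1 : E 3 → ℝ≥0∞) x =
          ENNReal.ofReal ((((Finset.univ \ R).filter (fun i => x ∈ A i)).card : ℕ) : ℝ) := by
        rw [ENNReal.ofReal_natCast, Finset.card_filter]
        push_cast
        refine Finset.sum_congr rfl fun i _ => ?_
        by_cases h : x ∈ A i
        · rw [indicator_of_mem h, if_pos h]; rfl
        · rw [indicator_of_notMem h, if_neg h]
      have h8 : (0 : ℝ) ≤ 8 * τ := by positivity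
      have hκτ : (0 : ℝ) ≤ κ * τ := by positivity
      rw [e1, e2, hmc, ← ENNReal.ofReal_natCast m, ← ENNReal.ofReal_mul hκτ,
        ← ENNReal.ofReal_mul h8, ← ENNReal.ofReal_add (Nat.cast_nonneg _)
          (mul_nonneg h8 (Nat.cast_nonneg _))]
      exact ENNReal.ofReal_le_ofReal h3
    · rw [hmA0 x hx, mul_zero]
      exact zero_le
  have hlight : ∑ i ∈ Finset.univ \ R, v i ≤ N * w := by
    calc ∑ i ∈ Finset.univ \ R, v i ≤ ∑ _i ∈ Finset.univ \ R, w := by
          apply Finset.sum_le_sum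
          intro i hi
          by_contra hcon
          rw [not_le] at hcon
          exact (Finset.mem_sdiff.1 hi).2 (Finset.mem_filter.2 ⟨Finset.mem_univ _, hcon.le⟩)
      _ = ((Finset.univ \ R).card : ℝ) * w := by rw [Finset.sum_const, nsmul_eq_mul]
      _ ≤ N * w := by
          gcongr
          rw [hNdef]
          exact_mod_cast Finset.card_le_univ _
  have hI2 : ENNReal.ofReal (κ * τ * S) ≤ (∫⁻ x, pr x) + ENNReal.ofReal (8 * τ * (N * w)) := by
    calc ENNReal.ofReal (κ * τ * S) = ∫⁻ x, ENNReal.ofReal (κ * τ) * mult A x := by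
          rw [lintegral_const_mul _ (mult_meas hAm), hint, ← ENNReal.ofReal_mul (by positivity)]
      _ ≤ ∫⁻ x, (pr x + ENNReal.ofReal (8 * τ) * ∑ i ∈ Finset.univ \ R, (A i).indicator 1 x) :=
          lintegral_mono hbroad
      _ = (∫⁻ x, pr x) + ENNReal.ofReal (8 * τ) *
            ∑ i ∈ Finset.univ \ R, ENNReal.ofReal (v i) := by
          rw [lintegral_add_left hpm, lintegral_const_mul _ (Finset.measurable_sum _ fun i _ =>
            measurable_one.indicator (hAm i)), lintegral_finsetSum _ fun i _ =>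
            measurable_one.indicator (hAm i)]
          congr 2
          refine Finset.sum_congr rfl fun i _ => ?_
          rw [lintegral_indicator_one (hAm i), hve]
      _ ≤ _ := by
          rw [← ENNReal.ofReal_sum_of_nonneg fun i _ => hv0 i, ← ENNReal.ofReal_mul (by positivity)]
          gcongr
  -- one scale and one class
  set Jc : ℕ → ι → Finset ι := fun cl i => (PR i).filter (fun j =>
    2 ^ cl * δ ≤ ‖e i - e j‖ ∧ ‖e i - e j‖ ≤ 2 * (2 ^ cl * δ)) with hJc
  set V : ℕ → ℕ → ℝ≥0∞ := fun k cl => ∑ i ∈ R, ∑ j ∈ Jc cl i,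
    ∫⁻ x, (Yp (A i) (a i) (e i) ((1 / 2) ^ k) K ∩ A j).indicator 1 x *
      fm volume (A j) (far ((1 / 2) ^ k)) x with hV
  have hUsum : ∫⁻ x, u x ≤ ∑ k ∈ Finset.range K, ∑ cl ∈ Finset.range L, V k cl := by
    have hm2 : ∀ i j (k : ℕ), Measurable fun x => (Yp (A i) (a i) (e i) ((1 / 2) ^ k) K ∩
        A j).indicator (1 : E 3 → ℝ≥0∞) x * fm volume (A j) (far ((1 / 2) ^ k)) x := fun i j k =>
      (measurable_one.indicator ((Yp_ms (hAm i) _ _ _ K).inter (hAm j))).mul
        (fm_meas (hAm j) (far_ms _))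
    calc ∫⁻ x, u x = ∑ i ∈ R, ∑ j ∈ PR i, ∫⁻ x, sd (A i) (A j) (a i) (e i) K x := by
          rw [hu, lintegral_finsetSum _ fun i _ => Finset.measurable_sum _ fun j _ =>
            sd_meas (hAm i) (hAm j) _ _ _]
          refine Finset.sum_congr rfl fun i _ => ?_
          rw [lintegral_finsetSum _ fun j _ => sd_meas (hAm i) (hAm j) _ _ _]
      _ = ∑ i ∈ R, ∑ k ∈ Finset.range K, ∑ j ∈ PR i,
          ∫⁻ x, (Yp (A i) (a i) (e i) ((1 / 2) ^ k) K ∩ A j).indicator 1 x *
            fm volume (A j) (far ((1 / 2) ^ k)) x := by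
          refine Finset.sum_congr rfl fun i _ => ?_
          rw [Finset.sum_comm]
          refine Finset.sum_congr rfl fun j _ => ?_
          unfold sd
          rw [lintegral_finsetSum _ fun k _ => hm2 i j k]
      _ ≤ ∑ i ∈ R, ∑ k ∈ Finset.range K, ∑ cl ∈ Finset.range L, ∑ j ∈ Jc cl i,
          ∫⁻ x, (Yp (A i) (a i) (e i) ((1 / 2) ^ k) K ∩ A j).indicator 1 x *
            fm volume (A j) (far ((1 / 2) ^ k)) x := by
          refine Finset.sum_le_sum fun i _ => Finset.sum_le_sum fun k _ => ?_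
          refine split_classes hδ hL (PR i) (fun j => ‖e i - e j‖) (fun j hj => ⟨hsep i j ?_,
            hpair i j⟩) _
          rintro rfl
          have h1 := (Finset.mem_filter.1 hj).2
          rw [hrel] at h1
          simp only [sub_self, norm_zero] at h1
          linarith
      _ = _ := by
          rw [Finset.sum_comm]
          refine Finset.sum_congr rfl fun k _ => ?_
          rw [Finset.sum_comm]
  obtain ⟨⟨k, cl⟩, hkcl, hmax⟩ := Finset.exists_max_image (Finset.range K ×ˢ Finset.range L)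
    (fun p => V p.1 p.2) ⟨(0, 0), Finset.mem_product.2
      ⟨Finset.mem_range.2 (by omega), Finset.mem_range.2 (by omega)⟩⟩
  obtain ⟨hkK, -⟩ := Finset.mem_product.1 hkcl
  have hk : k < K := Finset.mem_range.1 hkK
  simp only at hmax
  have hUV : ∫⁻ x, u x ≤ ((K * L : ℕ) : ℝ≥0∞) * V k cl := by
    refine hUsum.trans ?_
    rw [← Finset.sum_product']
    refine (Finset.sum_le_card_nsmul _ _ _ hmax).trans ?_
    rw [Finset.card_product, Finset.card_range, Finset.card_range, nsmul_eq_mul]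
  set h : ℝ := (1 / 2) ^ k with hh
  have hh0 : 0 < h := by positivity
  have hh1 : h ≤ 1 := pow_le_one₀ (by norm_num) (by norm_num)
  have hKh : (1 / 2 : ℝ) ^ K ≤ h := pow_le_pow_of_le_one (by norm_num) (by norm_num) hk.le
  set θ : ℝ := 2 ^ cl * δ with hθ
  have hθδ : δ ≤ θ := by
    have : (1 : ℝ) ≤ 2 ^ cl := one_le_pow₀ (by norm_num)
    rw [hθ]
    nlinarith
  have hθ0 : 0 < θ := hδ.trans_le hθδ
  set ρ : ℝ := 3 * δ + 2 * θ * (4 * h) with hρ
  have hρ0 : 0 < ρ := by positivity
  set Bq : ℝ := CW * (δ ^ (3 - 1) * δ ^ (3 - 1) * h ^ (-(((3 : ℕ) : ℝ) - 2)) * (δ / θ) * δ ^ (-ε))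
    with hBq
  set Hc : ℝ := C * (c * δ ^ 3 * δ ^ (3 - 1) * (h ^ 2 * h ^ (-(((3 : ℕ) : ℝ) - 2))) *
        (√ρ)⁻¹ * δ ^ (-ε)) with hHc
  have hBq0 : 0 ≤ Bq := by positivity
  have hHc0 : 0 ≤ Hc := by positivity
  have hGτ : ENNReal.ofReal τ * volume G ≤ ENNReal.ofReal S := by
    rw [← hS, ← setLIntegral_const]
    exact setLIntegral_mono' hG hmul2
  have hmul' : ∀ x ∈ G, mult (fun i => tube δ (a i) (e i)) x ≤ ENNReal.ofReal (2 * (2 * τ)) := by
    intro x hx
    refine (hmul x hx).trans (le_of_eq ?_)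
    congr 1
    ring
  have hm1 : ∀ i j (p : ℤ), Measurable fun x => ((A i ∩ piece (a i) (e i) (4 * h) p) ∩
      A j).indicator (1 : E 3 → ℝ≥0∞) x * fm volume (A j) (far h) x := fun i j p =>
    (measurable_one.indicator (((hAm i).inter (piece_ms _ _ _ _)).inter (hAm j))).mul
      (fm_meas (hAm j) (far_ms _))
  -- the sum over the stems of a bound for the pieces
  have hstem : ∀ X : ℝ, 0 ≤ X → (∀ i, ∀ p : ℤ, ∑ j ∈ Jc cl i,
        ∫⁻ x, ((A i ∩ piece (a i) (e i) (4 * h) p) ∩ A j).indicator 1 x *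
          fm volume (A j) (far h) x ≤ ENNReal.ofReal (Real.sqrt (X * v i))) →
      V k cl ≤ ENNReal.ofReal (6 * K * Real.sqrt (N * (X * S))) := by
    intro X hX hone
    calc V k cl ≤ ∑ i ∈ R, ENNReal.ofReal (6 * K * Real.sqrt (X * v i)) := by
          apply Finset.sum_le_sum
          intro i hi
          have h0 : volume (A i) ≠ 0 := by
            intro h0
            have h1 := (Finset.mem_filter.1 hi).2
            have h2 : v i = 0 := by
              rw [hv]
              simp only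
              rw [h0]
              simp
            linarith
          calc ∑ j ∈ Jc cl i, ∫⁻ x, (Yp (A i) (a i) (e i) h K ∩ A j).indicator 1 x *
                fm volume (A j) (far h) x
              ≤ ∑ j ∈ Jc cl i, ∫⁻ x, ∑ p ∈ goodp (A i) (a i) (e i) h K,
                ((A i ∩ piece (a i) (e i) (4 * h) p) ∩ A j).indicator 1 x *
                  fm volume (A j) (far h) x :=
                Finset.sum_le_sum fun j _ => lintegral_mono fun x => split_pieces _ _ _ _ _ _
            _ = ∑ p ∈ goodp (A i) (a i) (e i) h K, ∑ j ∈ Jc cl i, ∫⁻ x,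
                ((A i ∩ piece (a i) (e i) (4 * h) p) ∩ A j).indicator 1 x *
                  fm volume (A j) (far h) x := by
                rw [Finset.sum_comm]
                refine Finset.sum_congr rfl fun j _ => ?_
                rw [lintegral_finsetSum _ fun p _ => hm1 i j p]
            _ ≤ ∑ _p ∈ goodp (A i) (a i) (e i) h K,
                ENNReal.ofReal (Real.sqrt (X * v i)) :=
                Finset.sum_le_sum fun p _ => hone i p
            _ = (goodp (A i) (a i) (e i) h K).card *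
                ENNReal.ofReal (Real.sqrt (X * v i)) := by
                rw [Finset.sum_const, nsmul_eq_mul]
            _ ≤ ((6 * K : ℕ) : ℝ≥0∞) * ENNReal.ofReal (Real.sqrt (X * v i)) := by
                gcongr
                exact goodp_card (hAm i) (a i) (e i) h K h0 (hfin i)
            _ = _ := by
                rw [← ENNReal.ofReal_natCast, ← ENNReal.ofReal_mul (Nat.cast_nonneg _)]
                congr 1
                push_cast
                ring
      _ = ENNReal.ofReal (∑ i ∈ R, 6 * K * Real.sqrt (X * v i)) := by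
          rw [ENNReal.ofReal_sum_of_nonneg fun i _ => by positivity]
      _ ≤ _ := by
          apply ENNReal.ofReal_le_ofReal
          rw [← Finset.mul_sum]
          gcongr
          apply Real.le_sqrt_of_sq_le
          calc (∑ i ∈ R, Real.sqrt (X * v i)) ^ 2
              ≤ R.card * ∑ i ∈ R, Real.sqrt (X * v i) ^ 2 := sq_sum_le_card_mul_sum_sq
            _ = R.card * ∑ i ∈ R, X * v i := by
                congr 1
                refine Finset.sum_congr rfl fun i _ => Real.sq_sqrt ?_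
                exact mul_nonneg hX (hv0 i)
            _ ≤ N * ∑ i, X * v i := by
                refine mul_le_mul ?_ (Finset.sum_le_sum_of_subset_of_nonneg
                  (Finset.subset_univ _) fun i _ _ => mul_nonneg hX (hv0 i))
                  (Finset.sum_nonneg fun i _ => mul_nonneg hX (hv0 i)) hN0.le
                rw [hNdef]
                exact_mod_cast Finset.card_le_univ R
            _ = N * (X * S) := by rw [← Finset.mul_sum, hvS]
  -- the hairbrush bound with growth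
  have hhair : V k cl ≤ ENNReal.ofReal (6 * K * Real.sqrt (N * (Hc * (2 * τ) * S))) := by
    refine hstem (Hc * (2 * τ)) (by positivity) ?_
    intro i p
    rcases (Jc cl i).eq_empty_or_nonempty with hJe | ⟨j0, hj0⟩
    · rw [hJe, Finset.sum_empty]
      exact zero_le
    have hθ1 : θ ≤ 1 := ((Finset.mem_filter.1 hj0).2.1).trans (hpair i j0)
    have h1 := hPB δ hδ hδ1 a e he hsep hpair F G hG hGF c hc hF (2 * τ) (by positivity) hmul' h
      hh0 hh1 (by linarith) i p θ hθδ hθ1 (Jc cl i) (fun j hj => (Finset.mem_filter.1 hj).2)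
    have h2 : ENNReal.ofReal (C * (c * δ ^ 3 * δ ^ (3 - 1) * (h ^ 2 *
        h ^ (-(((3 : ℕ) : ℝ) - 2))) * (√ρ)⁻¹ * δ ^ (-ε) * (2 * τ))) * volume (A i) ≤
        (ENNReal.ofReal (Real.sqrt (Hc * (2 * τ) * v i))) ^ 2 := by
      have hv' := hv0 i
      rw [← ENNReal.ofReal_pow (Real.sqrt_nonneg _), Real.sq_sqrt (by positivity), hve,
        ← ENNReal.ofReal_mul (by positivity)]
      apply ENNReal.ofReal_le_ofReal
      rw [hHc]
      apply le_of_eq
      ring
    exact (ENNReal.pow_le_pow_left_iff two_ne_zero).1 (h1.trans h2)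
  -- the hairbrush bound without growth
  have hwolff : V k cl ≤ ENNReal.ofReal (6 * K * Real.sqrt (N * (2 * (Bq * S) * S))) := by
    refine hstem (2 * (Bq * S)) (by positivity) ?_
    intro i p
    rcases (Jc cl i).eq_empty_or_nonempty with hJe | ⟨j0, hj0⟩
    · rw [hJe, Finset.sum_empty]
      exact zero_le
    have hθ1 : θ ≤ 1 := ((Finset.mem_filter.1 hj0).2.1).trans (hpair i j0)
    have h1 := hPW δ hδ hδ1 a e he hsep hpair G hG (2 * τ) (by positivity) hmul' h
      hh0 hh1 (by linarith) i p θ hθδ hθ1 (Jc cl i) (fun j hj => (Finset.mem_filter.1 hj).2)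
    have h2 : volume G * (ENNReal.ofReal (CW * (δ ^ (3 - 1) * δ ^ (3 - 1) *
        h ^ (-(((3 : ℕ) : ℝ) - 2)) * (δ / θ) * δ ^ (-ε) * (2 * τ))) * volume (A i)) ≤
        (ENNReal.ofReal (Real.sqrt (2 * (Bq * S) * v i))) ^ 2 := by
      have hv' := hv0 i
      rw [← ENNReal.ofReal_pow (Real.sqrt_nonneg _), Real.sq_sqrt (by positivity), hve]
      calc volume G * (ENNReal.ofReal (CW * (δ ^ (3 - 1) * δ ^ (3 - 1) *
            h ^ (-(((3 : ℕ) : ℝ) - 2)) * (δ / θ) * δ ^ (-ε) * (2 * τ))) * ENNReal.ofReal (v i))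
          = (ENNReal.ofReal τ * volume G) * (ENNReal.ofReal (2 * Bq) * ENNReal.ofReal (v i)) := by
            have : CW * (δ ^ (3 - 1) * δ ^ (3 - 1) * h ^ (-(((3 : ℕ) : ℝ) - 2)) * (δ / θ) *
                δ ^ (-ε) * (2 * τ)) = τ * (2 * Bq) := by
              rw [hBq]
              ring
            rw [this, ENNReal.ofReal_mul hτ.le]
            ring
        _ ≤ ENNReal.ofReal S * (ENNReal.ofReal (2 * Bq) * ENNReal.ofReal (v i)) := by gcongr
        _ = _ := by
            rw [← ENNReal.ofReal_mul (by positivity), ← ENNReal.ofReal_mul hS0.le]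
            congr 1
            ring
    exact (ENNReal.pow_le_pow_left_iff two_ne_zero).1 (h1.trans h2)
  have hVfin : V k cl ≠ ∞ := ne_top_of_le_ne_top ENNReal.ofReal_ne_top hhair
  have hUfin : ∫⁻ x, u x ≠ ∞ := ne_top_of_le_ne_top
    (ENNReal.mul_ne_top (ENNReal.natCast_ne_top _) hVfin) hUV
  have hpfin : ∫⁻ x, pr x ≠ ∞ := by
    have h1 : ∀ x, pr x ≤ (Fintype.card ι : ℝ≥0∞) * mult A x := by
      intro x
      rw [hpr' x]
      calc ∑ i ∈ R, ∑ j ∈ PR i, (A i ∩ A j).indicator (1 : E 3 → ℝ≥0∞) x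
          ≤ ∑ i : ι, ∑ j : ι, (A j).indicator (1 : E 3 → ℝ≥0∞) x := by
            refine (Finset.sum_le_sum_of_subset (Finset.subset_univ _)).trans
              (Finset.sum_le_sum fun i _ => ?_)
            refine (Finset.sum_le_sum_of_subset (Finset.subset_univ _)).trans
              (Finset.sum_le_sum fun j _ => ?_)
            exact indicator_le_indicator_of_subset inter_subset_right (fun _ => zero_le) x
        _ = _ := by
            rw [Finset.sum_const, Finset.card_univ, nsmul_eq_mul]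
            rfl
    refine ne_top_of_le_ne_top ?_ (lintegral_mono h1)
    rw [lintegral_const_mul _ (mult_meas hAm), hint]
    exact ENNReal.mul_ne_top (ENNReal.natCast_ne_top _) ENNReal.ofReal_ne_top
  -- to the reals
  set P : ℝ := (∫⁻ x, pr x).toReal with hP
  set U : ℝ := (∫⁻ x, u x).toReal with hU
  set Vr : ℝ := (V k cl).toReal with hVr
  have hPe : ∫⁻ x, pr x = ENNReal.ofReal P := (ENNReal.ofReal_toReal hpfin).symm
  have hUe : ∫⁻ x, u x = ENNReal.ofReal U := (ENNReal.ofReal_toReal hUfin).symm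
  have hVe : V k cl = ENNReal.ofReal Vr := (ENNReal.ofReal_toReal hVfin).symm
  have hP0 : 0 ≤ P := ENNReal.toReal_nonneg
  have hU0 : 0 ≤ U := ENNReal.toReal_nonneg
  have hVr0 : 0 ≤ Vr := ENNReal.toReal_nonneg
  have r1 : w * P ≤ 4 * K * U := by
    rw [hPe, hUe, ← ENNReal.ofReal_mul hw0.le] at hI1
    have e1 : (2 : ℝ≥0∞) * (2 * K : ℕ) * ENNReal.ofReal U = ENNReal.ofReal (4 * K * U) := by
      rw [ENNReal.ofReal_mul (by positivity), ENNReal.ofReal_mul (by norm_num),
        ENNReal.ofReal_natCast]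
      push_cast
      rw [ENNReal.ofReal_ofNat]
      ring
    rw [e1] at hI1
    exact (ENNReal.ofReal_le_ofReal_iff (by positivity)).1 hI1
  have r4 : τ * S / (4 * L) ≤ P := by
    rw [hPe, ← ENNReal.ofReal_add hP0 (by positivity)] at hI2
    have h1 := (ENNReal.ofReal_le_ofReal_iff (by positivity)).1 hI2
    have h2 : 8 * τ * (N * w) = τ * S / (4 * L) := by
      rw [hw]
      field_simp
      ring
    have h3 : κ * τ * S = τ * S / (4 * L) + τ * S / (4 * L) := by
      rw [hκ]
      field_simp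
      ring
    linarith
  have r5 : U ≤ K * L * Vr := by
    rw [hUe, hVe, ← ENNReal.ofReal_natCast, ← ENNReal.ofReal_mul (Nat.cast_nonneg _)] at hUV
    have h1 := (ENNReal.ofReal_le_ofReal_iff (by positivity)).1 hUV
    push_cast at h1
    exact h1
  have r7 : Vr ≤ 6 * K * Real.sqrt (N * (Hc * (2 * τ) * S)) := by
    rw [hVe] at hhair
    exact (ENNReal.ofReal_le_ofReal_iff (by positivity)).1 hhair
  have r6 : Vr ≤ (12 * K * Real.sqrt (Bq * N)) * S := by
    rw [hVe] at hwolff
    have h1 := (ENNReal.ofReal_le_ofReal_iff (by positivity)).1 hwolff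
    refine h1.trans ?_
    have h2 : Real.sqrt (N * (2 * (Bq * S) * S)) ≤ 2 * Real.sqrt (Bq * N) * S := by
      apply Real.sqrt_le_iff.2
      refine ⟨by positivity, ?_⟩
      rw [mul_pow, mul_pow, Real.sq_sqrt (by positivity)]
      have : 0 ≤ Bq * N * S ^ 2 := by positivity
      nlinarith
    calc 6 * K * Real.sqrt (N * (2 * (Bq * S) * S)) ≤ 6 * K * (2 * Real.sqrt (Bq * N) * S) := by
          gcongr
      _ = _ := by ring
  -- the trivial case
  rcases Finset.eq_empty_or_nonempty (R.filter (fun i => (Jc cl i).Nonempty)) with hRe | ⟨i0, hi0⟩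
  · have hV0 : V k cl = 0 := by
      rw [hV]
      refine Finset.sum_eq_zero fun i hi => ?_
      have : Jc cl i = ∅ := by
        by_contra hcon
        have h1 : i ∈ R.filter (fun i => (Jc cl i).Nonempty) :=
          Finset.mem_filter.2 ⟨hi, Finset.nonempty_iff_ne_empty.2 hcon⟩
        rw [hRe] at h1
        simp at h1
      rw [this, Finset.sum_empty]
    have hVr' : Vr = 0 := by rw [hVr, hV0]; simp
    have h1 := cap_alg hτ hS0 hN0 hw (Nat.cast_nonneg K) hL0 (le_refl (0 : ℝ)) (le_refl (0 : ℝ)) r1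
      r4 (V := 0) (by rwa [hVr'] at r5) (by simp) (by simp)
    have h2 : (τ * S ^ 2) ^ 2 ≤ 0 := by
      refine h1.trans (le_of_eq ?_)
      ring
    have h3 : 0 < (τ * S ^ 2) ^ 2 := by positivity
    linarith
  have hrθ : r ≤ 4 * θ := by
    obtain ⟨hi0R, ⟨j0, hj0⟩⟩ := Finset.mem_filter.1 hi0
    obtain ⟨hj1, -, hj3⟩ := Finset.mem_filter.1 hj0
    have hj2 := (Finset.mem_filter.1 hj1).2
    rw [hrel] at hj2
    have : r / 2 < 2 * θ := lt_of_lt_of_le hj2 hj3
    linarith
  have halg := cap_alg hτ hS0 hN0 hw (Nat.cast_nonneg K) hL0 (B := 12 * K * Real.sqrt (Bq * N))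
    (H := Hc) (by positivity) hHc0 r1 r4 r5 r6 r7
  have hpe : h ^ (-(((3 : ℕ) : ℝ) - 2)) = h⁻¹ := by
    rw [show (-(((3 : ℕ) : ℝ) - 2)) = -1 by norm_num, Real.rpow_neg_one]
  have hprod := prod_alg (δ := δ) (θ := θ) (h := h) (ρ := ρ) (c := c) (C := C) (CW := CW)
    (K0 := K0) (N := N) (r := r) (Dε := δ ^ (-ε)) hδ hθ0 hh0 (by
      rw [hρ]
      nlinarith [mul_pos hθ0 hh0]) hc hC.le hCW.le (by linarith) hr.le hrθ hN (by positivity)
  rw [← hpe] at hprod
  calc (τ * S ^ 2) ^ 2 ≤ 9663676416 * ((K : ℝ) ^ 8 * (L : ℝ) ^ 9) *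
        (12 * K * Real.sqrt (Bq * N) * Hc) * N ^ 4 := halg
    _ = 115964116992 * ((K : ℝ) ^ 9 * (L : ℝ) ^ 9) * (Real.sqrt (Bq * N) * Hc) * N ^ 4 := by ring
    _ ≤ 115964116992 * ((K : ℝ) ^ 9 * (L : ℝ) ^ 9) * (4 * Real.sqrt (CW * K0) * C *
        (c * (δ ^ 6 * √δ) * (δ ^ (-ε) * √(δ ^ (-ε))))) * N ^ 4 := by
        gcongr
    _ = _ := by ring

end Pool.Agent.H74.TG
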